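import Mathlib
import Pool.Agent.Helper832.GDD

set_option autoImplicit false
set_option maxSynthPendingDepth 3
set_option linter.unusedSectionVars false
set_option linter.unusedVariables false

/-!
Project DT: the bidimension of `C(Ω)` is never three. Definitions.
-/

namespace Pool.Agent.W667.DT

open Pool.Agent.Helper832.GD Pool.Agent.Helper832.GD.Bim ContinuousLinearMap

noncomputable section

/-! ### Topology -/

section Top

/-- iterated derived sets -/
def Dr (Ω : Type) [TopologicalSpace Ω] : ℕ → Set Ω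
  | 0 => Set.univ
  | r + 1 => derivedSet (Dr Ω r)

/-- `O` is a disjoint union of clopen sets -/
def DU {Ω : Type} [TopologicalSpace Ω] (O : Set Ω) : Prop :=
  ∃ 𝒟 : Set (Set Ω), (∀ C ∈ 𝒟, IsClopen C) ∧ 𝒟.PairwiseDisjoint id ∧ ⋃₀ 𝒟 = O

/-- a chain of rings of clopen sets closed under the operations `F n` with boundary points -/
structure Chain {Ω : Type} [TopologicalSpace Ω] (p : Ω)
    (F : ℕ → Set Ω → Set Ω → Set Ω → Set Ω) where
  M : ℕ → Set (Set Ω)
  x : ℕ → Ω
  V : ℕ → Set Ω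
  clopen : ∀ i, ∀ C ∈ M i, IsClopen C ∧ p ∉ C
  union : ∀ i, ∀ C ∈ M i, ∀ D ∈ M i, C ∪ D ∈ M i
  diff : ∀ i, ∀ C ∈ M i, ∀ D ∈ M i, C \ D ∈ M i
  op : ∀ i n, ∀ C₁ ∈ M i, ∀ C₂ ∈ M i, ∀ C₃ ∈ M i, F n C₁ C₂ C₃ ∈ M i
  mono : ∀ i, M i ⊆ M (i + 1)
  nmem : ∀ i, x i ∉ ⋃₀ M i
  cl : ∀ i, x i ∈ closure (⋃₀ M i)
  mem : ∀ i, x i ∈ V i
  Vmem : ∀ i, V i ∈ M (i + 1)
  disj : ∀ i j, i < j → Disjoint (V i) (V j)

/-- a finite stage of an embedding of the dyadic tree -/
structure Stage (Ω : Type) [TopologicalSpace Ω] (r k : ℕ) where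
  y : (Fin k → Bool) → Ω
  q : C(Ω, Fin k → Bool)
  qy : ∀ s, q (y s) = s
  rk : ∀ s, y s ∈ Dr Ω r

end Top

/-! ### Tensor products -/

section Tn

variable {P Q P' Q' : Type} [NormedAddCommGroup P] [NormedSpace ℂ P]
  [NormedAddCommGroup Q] [NormedSpace ℂ Q] [NormedAddCommGroup P'] [NormedSpace ℂ P']
  [NormedAddCommGroup Q'] [NormedSpace ℂ Q']

/-- `u ⊗ v` as a bounded bilinear map of `u` and `v` -/
def tmapL : (P →L[ℂ] P') →L[ℂ] (Q →L[ℂ] Q') →L[ℂ] (Tens P Q →L[ℂ] Tens P' Q') :=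
  LinearMap.mkContinuous₂
    (LinearMap.mk₂ ℂ
      (fun (u : P →L[ℂ] P') (v : Q →L[ℂ] Q') =>
        lift (((compL ℂ Q Q' (Tens P' Q')).flip v).comp (tens.comp u)))
      (fun u u' v => tens_ext fun p q => by simp)
      (fun c u v => tens_ext fun p q => by simp)
      (fun u v v' => tens_ext fun p q => by simp)
      (fun c u v => tens_ext fun p q => by simp))
    1 (fun u v => by
      show ‖lift (((compL ℂ Q Q' (Tens P' Q')).flip v).comp (tens.comp u))‖ ≤ _
      have hl : ∀ m : P →L[ℂ] Q →L[ℂ] Tens P' Q', ‖lift m‖ ≤ ‖m‖ := fun m =>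
        ContinuousLinearMap.opNorm_le_bound _ (norm_nonneg _) fun t => by
          have := norm_lift0_le m t
          rw [one_mul] at this
          exact this
      refine (hl _).trans ?_
      refine ContinuousLinearMap.opNorm_le_bound _ (by positivity) fun p => ?_
      refine ContinuousLinearMap.opNorm_le_bound _ (by positivity) fun q => ?_
      show ‖(tens (u p) (v q) : Tens P' Q')‖ ≤ _
      have h1 : ‖(tens (u p) (v q) : Tens P' Q')‖ ≤ ‖u p‖ * ‖v q‖ := by
        refine ContinuousLinearMap.opNorm_le_bound _ (by positivity) (fun β => ?_)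
        have := β.le_opNorm₂ (u p) (v q)
        calc ‖β (u p) (v q)‖ ≤ ‖β‖ * ‖u p‖ * ‖v q‖ := this
          _ = ‖u p‖ * ‖v q‖ * ‖β‖ := by ring
      calc _ ≤ ‖u p‖ * ‖v q‖ := h1
        _ ≤ (‖u‖ * ‖p‖) * (‖v‖ * ‖q‖) :=
          mul_le_mul (u.le_opNorm p) (v.le_opNorm q) (norm_nonneg _) (by positivity)
        _ = _ := by ring)

@[simp] lemma tmapL_tens (u : P →L[ℂ] P') (v : Q →L[ℂ] Q') (p : P) (q : Q) :
    tmapL u v (tens p q) = tens (u p) (v q) := by
  show lift (((compL ℂ Q Q' (Tens P' Q')).flip v).comp (tens.comp u)) (tens p q) = _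
  rw [lift_tens]
  rfl

end Tn

/-! ### The bimodule of the product of two cocycles -/

section KK

variable {Ω : Type} [TopologicalSpace Ω] [CompactSpace Ω] [T2Space Ω]

/-- functions `k` on `Ω × Ω` with `k (y, p) = 0` and `k (y, y) = 0` -/
def KS (p : Ω) : Submodule ℂ C(Ω × Ω, ℂ) where
  carrier := {k | (∀ y, k (y, p) = 0) ∧ ∀ y, k (y, y) = 0}
  add_mem' := by
    rintro a b ⟨h1, h2⟩ ⟨h3, h4⟩
    exact ⟨fun y => by simp [h1, h3], fun y => by simp [h2, h4]⟩
  zero_mem' := ⟨fun _ => rfl, fun _ => rfl⟩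
  smul_mem' := by
    rintro c a ⟨h1, h2⟩
    exact ⟨fun y => by simp [h1], fun y => by simp [h2]⟩

lemma isClosed_KS (p : Ω) : IsClosed (KS p : Set C(Ω × Ω, ℂ)) := by
  have : (KS p : Set C(Ω × Ω, ℂ)) = (⋂ y, {k | k (y, p) = 0}) ∩ ⋂ y, {k | k (y, y) = 0} := by
    ext k
    simp only [Set.mem_inter_iff, Set.mem_iInter]
    exact Iff.rfl
  rw [this]
  exact (isClosed_iInter fun y => isClosed_eq (ContinuousMap.evalCLM ℂ (y, p)).continuous
    continuous_const).inter (isClosed_iInter fun y =>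
      isClosed_eq (ContinuousMap.evalCLM ℂ (y, y)).continuous continuous_const)

instance (p : Ω) : CompleteSpace (KS p) := (isClosed_KS p).completeSpace_coe

/-- evaluation at a point of `Ω × Ω` -/
def ev2 (p : Ω) (w : Ω × Ω) : KS p →L[ℂ] ℂ := (ContinuousMap.evalCLM ℂ w).comp (KS p).subtypeL

@[simp] lemma ev2_apply (p : Ω) (w : Ω × Ω) (k : KS p) : ev2 p w k = k.1 w := rfl

/-- evaluation of elements of the tensor product at a pair of points of `Ω × Ω` -/
def E4 (p : Ω) (w w' : Ω × Ω) : Tens (KS p) (KS p) →L[ℂ] ℂ :=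
  lift (((compL ℂ (KS p) ℂ ℂ).flip (ev2 p w')).comp
    ((ContinuousLinearMap.mul ℂ ℂ).comp (ev2 p w)))

@[simp] lemma E4_tens (p : Ω) (w w' : Ω × Ω) (k k' : KS p) :
    E4 p w w' (tens k k') = k.1 w * k'.1 w' := by
  show lift _ (tens k k') = _
  rw [lift_tens]
  rfl

/-- the value of the linearisation of a bilinear form is the value of the functional -/
lemma lift_scalar {P Q : Type} [NormedAddCommGroup P] [NormedSpace ℂ P]
    [NormedAddCommGroup Q] [NormedSpace ℂ Q] (β : P →L[ℂ] Q →L[ℂ] ℂ) (t : Tens P Q) :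
    lift β t = tensVal t β := by
  have h := lift0_spec β t (ContinuousLinearMap.id ℂ ℂ)
  have e : compBil β (ContinuousLinearMap.id ℂ ℂ) = β := by
    ext p q
    rfl
  rw [e] at h
  exact h

/-- the duality bound: a finite combination of evaluations given by a bilinear form of norm at
most `c` has norm at most `c` on the tensor product -/
lemma norm_lift_scalar_le {P Q : Type} [NormedAddCommGroup P] [NormedSpace ℂ P]
    [NormedAddCommGroup Q] [NormedSpace ℂ Q] (β : P →L[ℂ] Q →L[ℂ] ℂ) (t : Tens P Q) :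
    ‖lift β t‖ ≤ ‖t‖ * ‖β‖ := by
  rw [lift_scalar]
  exact (tensVal t).le_opNorm β

open Classical in
/-- the indicator function of a clopen set (zero if the set is not clopen) -/
def ind (C : Set Ω) : C(Ω, ℂ) :=
  if h : IsClopen C then ⟨C.indicator 1, h.continuous_indicator continuous_one⟩ else 0

lemma ind_apply {C : Set Ω} (h : IsClopen C) (w : Ω) : ind C w = C.indicator 1 w := by
  simp [ind, h]

end KK

/-! ### Functoriality of the iterated kernel modules -/

section Km

variable {A A' A'' : Type} [NonUnitalNormedRing A] [NormedSpace ℂ A] [IsScalarTower ℂ A A]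
  [SMulCommClass ℂ A A] [CompleteSpace A] [NonUnitalNormedRing A'] [NormedSpace ℂ A']
  [IsScalarTower ℂ A' A'] [SMulCommClass ℂ A' A'] [CompleteSpace A']
  [NonUnitalNormedRing A''] [NormedSpace ℂ A'']
  [IsScalarTower ℂ A'' A''] [SMulCommClass ℂ A'' A''] [CompleteSpace A'']

/-- the inclusion `x ↦ (0, x)` of an algebra into its unitization -/
def pin (A : Type) [NonUnitalNormedRing A] [NormedSpace ℂ A] : A →L[ℂ] Plus A :=
  ((WithLp.linearEquiv 1 ℂ (ℂ × A)).symm.toLinearMap.comp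
    (LinearMap.inr ℂ ℂ A)).mkContinuous 1 (fun x => by
      show ‖(WithLp.toLp 1 ((0 : ℂ), x) : Plus A)‖ ≤ 1 * ‖x‖
      rw [plus_norm]
      simp)

/-- the map of unitizations `(r, x) ↦ (r, φ x)` -/
def pmap (φ : A →L[ℂ] A') : (plusBim A).carrier →L[ℂ] (plusBim A').carrier :=
  smulRightL ℂ (Plus A) (Plus A') (pfst A) (pone A') + (pin A').comp (φ.comp (psnd A))

/-- the maps of the iterated kernel modules given by an operator `A → A'` -/
def km (φ : A →L[ℂ] A') : ∀ n : ℕ, (Kp n (plusBim A)).carrier →L[ℂ] (Kp n (plusBim A')).carrier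
  | 0 => pmap φ
  | n + 1 => tmapL φ (km φ n)

lemma km_tn (φ : A →L[ℂ] A') (n : ℕ) (a : A) (x : (Kp n (plusBim A)).carrier) :
    km φ (n + 1) ((Kp n (plusBim A)).tn a x) = (Kp n (plusBim A')).tn (φ a) (km φ n x) :=
  tmapL_tens _ _ _ _

/-- composition with a continuous map as an operator `C(X) → C(Y)` -/
def cm {X Y : Type} [TopologicalSpace X] [CompactSpace X] [TopologicalSpace Y] [CompactSpace Y]
    (α : C(Y, X)) : C(X, ℂ) →L[ℂ] C(Y, ℂ) :=
  LinearMap.mkContinuous
    { toFun := fun f => f.comp α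
      map_add' := fun _ _ => rfl
      map_smul' := fun _ _ => rfl } 1 (fun f => by
    rw [one_mul]
    exact (ContinuousMap.norm_le _ (norm_nonneg _)).2 fun y => f.norm_coe_le_norm (α y))

@[simp] lemma cm_apply {X Y : Type} [TopologicalSpace X] [CompactSpace X] [TopologicalSpace Y]
    [CompactSpace Y] (α : C(Y, X)) (f : C(X, ℂ)) (y : Y) : cm α f y = f (α y) := rfl

/-- the Cantor space -/
abbrev Cantor : Type := ℕ → Bool

/-- restriction to the first `k` coordinates -/
def rho (k : ℕ) : C(Cantor, Fin k → Bool) := ⟨fun z i => z i, by fun_prop⟩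

/-- extension by `false` -/
def zet (k : ℕ) : C(Fin k → Bool, Cantor) :=
  ⟨fun s i => if h : i < k then s ⟨i, h⟩ else false, continuous_of_discreteTopology⟩

end Km

/-! ### Extensions -/

section Ext

variable {A : Type} [NonUnitalNormedRing A] [NormedSpace ℂ A] [IsScalarTower ℂ A A]
  [SMulCommClass ℂ A A]

/-- admissible short exact sequences `0 → X' → X → X'' → 0` -/
def SE (X' X X'' : Bim A A) : Prop :=
  ∃ (i : Op X' X) (q : Op X X'') (r : Op X X') (s : Op X'' X), IsHom i ∧ IsHom q ∧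
    (∀ x, r (i x) = x) ∧ (∀ x, q (s x) = x) ∧ (∀ x, i (r x) + s (q x) = x) ∧ ∀ x, q (i x) = 0

/-- homological dimension at most `n` -/
def Dn : ℕ → Bim A A → Prop
  | 0, X => X.Projective
  | n + 1, X => ∃ P K : Bim A A, P.Projective ∧ Dn n K ∧ SE K P X

end Ext

/-! ### Modules over `C(Ω)` -/

section Modules

variable {Ω : Type} [TopologicalSpace Ω] [CompactSpace Ω] [T2Space Ω]

/-- `C(Ω)` as a bimodule -/
def Ab (Ω : Type) [TopologicalSpace Ω] [CompactSpace Ω] : Bim C(Ω, ℂ) C(Ω, ℂ) where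
  carrier := C(Ω, ℂ)
  left := ContinuousLinearMap.mul ℂ C(Ω, ℂ)
  right := ContinuousLinearMap.mul ℂ C(Ω, ℂ)
  left_mul a b x := mul_assoc a b x
  right_mul a b x := by
    show a * b * x = b * (a * x)
    ring
  left_right a b x := by
    show a * (b * x) = b * (a * x)
    ring

/-- the functions vanishing off `O` -/
def C0 (O : Set Ω) : Submodule ℂ C(Ω, ℂ) where
  carrier := {f | ∀ w ∉ O, f w = 0}
  add_mem' h1 h2 w hw := by simp [h1 w hw, h2 w hw]
  zero_mem' _ _ := rfl
  smul_mem' c a h w hw := by simp [h w hw]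

lemma isClosed_C0 (O : Set Ω) : IsClosed (C0 O : Set C(Ω, ℂ)) := by
  have : (C0 O : Set C(Ω, ℂ)) = ⋂ w : {w // w ∉ O}, {f | f w = 0} := by
    ext f
    simp only [Set.mem_iInter]
    exact ⟨fun h w => h w.1 w.2, fun h w hw => h ⟨w, hw⟩⟩
  rw [this]
  exact isClosed_iInter fun w => isClosed_eq (ContinuousMap.evalCLM ℂ w.1).continuous
    continuous_const

instance (O : Set Ω) : CompleteSpace (C0 O) := (isClosed_C0 O).completeSpace_coe

/-- multiplication `C(Ω) × C0 O → C0 O` -/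
def mulC (O : Set Ω) : C(Ω, ℂ) →L[ℂ] C0 O →L[ℂ] C0 O :=
  LinearMap.mkContinuous₂
    (LinearMap.mk₂ ℂ (fun (a : C(Ω, ℂ)) (f : C0 O) =>
        (⟨a * f.1, fun w hw => by simp [f.2 w hw]⟩ : C0 O))
      (fun a b y => by ext; simp [add_mul]) (fun c a y => by ext; simp [mul_assoc])
      (fun a y z => by ext; simp [mul_add])
      (fun c a y => by
        ext w
        show a w * (c * y.1 w) = c * (a w * y.1 w)
        ring))
    1 (fun a f => by
      rw [one_mul]
      exact norm_mul_le a f.1)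

@[simp] lemma mulC_apply (O : Set Ω) (a : C(Ω, ℂ)) (f : C0 O) (w : Ω) :
    (mulC O a f).1 w = a w * f.1 w := rfl

/-- the ideal of the functions vanishing off `O` as a bimodule -/
def Ib (O : Set Ω) : Bim C(Ω, ℂ) C(Ω, ℂ) where
  carrier := C0 O
  left := mulC O
  right := mulC O
  left_mul a b x := by
    ext w
    simp [mul_assoc]
  right_mul a b x := by
    ext w
    show (a * b) w * x.1 w = b w * (a w * x.1 w)
    rw [ContinuousMap.mul_apply]
    ring
  left_right a b x := by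
    ext w
    show a w * (b w * x.1 w) = b w * (a w * x.1 w)
    ring

/-- the inclusion `C0 O → C0 O'` for `O ⊆ O'` -/
def inc {O O' : Set Ω} (h : O ⊆ O') : C0 O →L[ℂ] C0 O' :=
  LinearMap.mkContinuous
    { toFun := fun f => ⟨f.1, fun w hw => f.2 w fun hw' => hw (h hw')⟩
      map_add' := fun _ _ => rfl
      map_smul' := fun _ _ => rfl } 1 (fun f => by
    rw [one_mul]
    exact le_rfl)

@[simp] lemma inc_apply {O O' : Set Ω} (h : O ⊆ O') (f : C0 O) : (inc h f).1 = f.1 := rfl

/-- left multiplication on `C0 O ⊗ C0 O'` -/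
def tLeft (O O' : Set Ω) : C(Ω, ℂ) →L[ℂ] Tens (C0 O) (C0 O') →L[ℂ] Tens (C0 O) (C0 O') :=
  (tmapL.flip (ContinuousLinearMap.id ℂ (C0 O'))).comp (mulC O)

@[simp] lemma tLeft_tens (O O' : Set Ω) (a : C(Ω, ℂ)) (m : C0 O) (n : C0 O') :
    tLeft O O' a (tens m n) = tens (mulC O a m) n := tmapL_tens _ _ _ _

/-- right multiplication on `C0 O ⊗ C0 O'` -/
def tRight (O O' : Set Ω) : C(Ω, ℂ) →L[ℂ] Tens (C0 O) (C0 O') →L[ℂ] Tens (C0 O) (C0 O') :=
  (tmapL (ContinuousLinearMap.id ℂ (C0 O))).comp (mulC O')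

@[simp] lemma tRight_tens (O O' : Set Ω) (a : C(Ω, ℂ)) (m : C0 O) (n : C0 O') :
    tRight O O' a (tens m n) = tens m (mulC O' a n) := tmapL_tens _ _ _ _

/-- the bimodule `C0 O ⊗ C0 O'` -/
def TT (O O' : Set Ω) : Bim C(Ω, ℂ) C(Ω, ℂ) where
  carrier := Tens (C0 O) (C0 O')
  left := tLeft O O'
  right := tRight O O'
  left_mul a b x := by
    have : tLeft O O' (a * b) = (tLeft O O' a).comp (tLeft O O' b) :=
      tens_ext fun p q => by
        rw [comp_apply, tLeft_tens, tLeft_tens, tLeft_tens]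
        have e : mulC O (a * b) p = mulC O a (mulC O b p) := by
          ext w
          simp [mul_assoc]
        rw [e]
    rw [this]
    rfl
  right_mul a b x := by
    have : tRight O O' (a * b) = (tRight O O' b).comp (tRight O O' a) :=
      tens_ext fun p q => by
        rw [comp_apply, tRight_tens, tRight_tens, tRight_tens]
        have e : mulC O' (a * b) q = mulC O' b (mulC O' a q) := by
          ext w
          show (a * b) w * q.1 w = b w * (a w * q.1 w)
          rw [ContinuousMap.mul_apply]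
          ring
        rw [e]
    rw [this]
    rfl
  left_right a b x := by
    have : (tLeft O O' a).comp (tRight O O' b) = (tRight O O' b).comp (tLeft O O' a) :=
      tens_ext fun p q => by
        rw [comp_apply, comp_apply, tLeft_tens, tRight_tens, tRight_tens, tLeft_tens]
    exact congrArg (fun f : Tens (C0 O) (C0 O') →L[ℂ] Tens (C0 O) (C0 O') => f x) this

lemma TT_left_tens (O O' : Set Ω) (a : C(Ω, ℂ)) (m : C0 O) (n : C0 O') :
    (TT O O').left a (tens m n) = (tens (mulC O a m) n : Tens (C0 O) (C0 O')) :=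
  tmapL_tens _ _ _ _

lemma TT_right_tens (O O' : Set Ω) (a : C(Ω, ℂ)) (m : C0 O) (n : C0 O') :
    (TT O O').right a (tens m n) = (tens m (mulC O' a n) : Tens (C0 O) (C0 O')) :=
  tmapL_tens _ _ _ _

/-- a family of pairwise disjoint clopen sets indexed by `I`, labelled by `S` -/
structure Blk (Ω : Type) [TopologicalSpace Ω] (S : Type) where
  I : Type
  V : I → Set Ω
  l : I → S
  clopen : ∀ i, IsClopen (V i)
  disj : Pairwise fun i j => Disjoint (V i) (V j)

/-- the union of the sets of the family -/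
def Blk.U {S : Type} (B : Blk Ω S) : Set Ω := ⋃ i, B.V i

/-- the generators of the block diagonal part of `C0 U ⊗ C0 U'` -/
def PGen {S : Type} (B B' : Blk Ω S) : Set (Tens (C0 B.U) (C0 B'.U)) :=
  {t | ∃ (i : B.I) (j : B'.I) (m : C0 B.U) (n : C0 B'.U), B.l i = B'.l j ∧
    (∀ w ∉ B.V i, m.1 w = 0) ∧ (∀ w ∉ B'.V j, n.1 w = 0) ∧ t = tens m n}

/-- the block diagonal part of `C0 U ⊗ C0 U'` -/
def PSub {S : Type} (B B' : Blk Ω S) : Submodule ℂ (Tens (C0 B.U) (C0 B'.U)) :=
  (Submodule.span ℂ (PGen B B')).topologicalClosure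

lemma isClosed_PSub {S : Type} (B B' : Blk Ω S) :
    IsClosed (PSub B B' : Set (Tens (C0 B.U) (C0 B'.U))) :=
  Submodule.isClosed_topologicalClosure _

lemma PSub_invariant {S : Type} (B B' : Blk Ω S) (T : Tens (C0 B.U) (C0 B'.U) →L[ℂ]
    Tens (C0 B.U) (C0 B'.U)) (hT : ∀ t ∈ PGen B B', T t ∈ PGen B B') :
    ∀ t ∈ PSub B B', T t ∈ PSub B B' := by
  have h : (Submodule.span ℂ (PGen B B')).topologicalClosure ≤
      ((Submodule.span ℂ (PGen B B')).topologicalClosure).comap T.toLinearMap := by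
    refine Submodule.topologicalClosure_minimal _ ?_ ?_
    · rw [Submodule.span_le]
      intro t ht
      exact Submodule.le_topologicalClosure _ (Submodule.subset_span (hT t ht))
    · exact (Submodule.isClosed_topologicalClosure _).preimage T.continuous
  exact fun t ht => h ht

/-- the block diagonal part of `C0 U ⊗ C0 U'` as a bimodule -/
def PB {S : Type} (B B' : Blk Ω S) : Bim C(Ω, ℂ) C(Ω, ℂ) :=
  Bim.sub (TT B.U B'.U) (PSub B B') (isClosed_PSub B B')
    (fun a => PSub_invariant B B' (tLeft B.U B'.U a) (by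
      rintro _ ⟨i, j, m, n, h1, h2, h3, rfl⟩
      exact ⟨i, j, mulC _ a m, n, h1, fun w hw => by simp [h2 w hw], h3, tLeft_tens _ _ _ _ _⟩))
    (fun a => PSub_invariant B B' (tRight B.U B'.U a) (by
      rintro _ ⟨i, j, m, n, h1, h2, h3, rfl⟩
      exact ⟨i, j, m, mulC _ a n, h1, h2, fun w hw => by simp [h3 w hw],
        tRight_tens _ _ _ _ _⟩))

end Modules

end

end Pool.Agent.W667.DT
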