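import Mathlib
import Pool.Agent.W667.DT.Defs

set_option autoImplicit false
set_option maxSynthPendingDepth 3
set_option linter.unusedSectionVars false
set_option linter.unusedVariables false

/-!
Project DT: modules over `C(Ω)` given by a family of pointed clopen sets.
-/

namespace Pool.Agent.W667.DT

open Pool.Agent.Helper832.GD Pool.Agent.Helper832.GD.Bim ContinuousLinearMap Topology

noncomputable section

variable {Ω : Type} [TopologicalSpace Ω] [CompactSpace Ω] [T2Space Ω]

/-- a family of pairwise disjoint clopen sets with a point in each of them -/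
structure PBlk (Ω : Type) [TopologicalSpace Ω] where
  I : Type
  V : I → Set Ω
  pt : I → Ω
  clopen : ∀ i, IsClopen (V i)
  disj : Pairwise fun i j => Disjoint (V i) (V j)
  mem : ∀ i, pt i ∈ V i

namespace PBlk

variable (B : PBlk Ω)

/-- the union of the sets of the family -/
def U : Set Ω := ⋃ i, B.V i

/-- the union of the sets `V i \ {pt i}` -/
def U' : Set Ω := ⋃ i, (B.V i \ {B.pt i})

lemma U'_sub : B.U' ⊆ B.U := Set.iUnion_mono fun i => Set.sdiff_subset

/-- the underlying family labelled by itself -/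
def toBlk : Blk Ω B.I := ⟨B.I, B.V, id, B.clopen, B.disj⟩

lemma toBlk_U : B.toBlk.U = B.U := rfl

open Classical in
/-- the map which sends the points of `V i` to `pt i` -/
def vv (w : Ω) : Ω := if h : ∃ i, w ∈ B.V i then B.pt h.choose else w

lemma vv_of_mem {i : B.I} {w : Ω} (hw : w ∈ B.V i) : B.vv w = B.pt i := by
  have h : ∃ i, w ∈ B.V i := ⟨i, hw⟩
  have e : h.choose = i := by
    by_contra hne
    exact Set.disjoint_left.1 (B.disj hne) h.choose_spec hw
  rw [vv, dif_pos h, e]

lemma vv_of_not_mem {w : Ω} (hw : w ∉ B.U) : B.vv w = w := by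
  rw [vv, dif_neg]
  intro h
  exact hw (Set.mem_iUnion.2 h)

lemma continuous_lam (a : C(Ω, ℂ)) (f : C(Ω, ℂ)) (hf : ∀ w ∉ B.U, f w = 0) :
    Continuous fun w => a (B.vv w) * f w := by
  rw [continuous_iff_continuousAt]
  intro w₀
  by_cases h : ∃ i, w₀ ∈ B.V i
  · obtain ⟨i, hi⟩ := h
    have h1 : (fun w => a (B.vv w) * f w) =ᶠ[𝓝 w₀] fun w => a (B.pt i) * f w := by
      filter_upwards [(B.clopen i).isOpen.mem_nhds hi] with w hw
      rw [B.vv_of_mem hw]
    exact ContinuousAt.congr (by fun_prop) h1.symm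
  · have h0 : w₀ ∉ B.U := fun h' => h (Set.mem_iUnion.1 h')
    have h1 : a (B.vv w₀) * f w₀ = 0 := by rw [hf _ h0, mul_zero]
    rw [ContinuousAt, h1]
    have h2 : Filter.Tendsto (fun w => ‖a‖ * ‖f w‖) (𝓝 w₀) (𝓝 0) := by
      have h3 : Continuous fun w => ‖a‖ * ‖f w‖ := by fun_prop
      have h4 := h3.tendsto w₀
      rw [hf _ h0, norm_zero, mul_zero] at h4
      exact h4
    refine squeeze_zero_norm (fun w => ?_) h2
    rw [norm_mul]
    exact mul_le_mul_of_nonneg_right (a.norm_coe_le_norm _) (norm_nonneg _)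

/-- multiplication of `f ∈ C0 O` by the function with the value `a (pt i)` on `V i` -/
def lam (O : Set Ω) (hO : O ⊆ B.U) : C(Ω, ℂ) →L[ℂ] C0 O →L[ℂ] C0 O :=
  LinearMap.mkContinuous₂
    (LinearMap.mk₂ ℂ (fun (a : C(Ω, ℂ)) (f : C0 O) =>
        (⟨⟨fun w => a (B.vv w) * f.1 w,
          B.continuous_lam a f.1 fun w hw => f.2 w fun h => hw (hO h)⟩,
          fun w hw => by simp [f.2 w hw]⟩ : C0 O))
      (fun a b y => by
        ext w
        show (a (B.vv w) + b (B.vv w)) * y.1 w = a (B.vv w) * y.1 w + b (B.vv w) * y.1 w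
        ring)
      (fun c a y => by
        ext w
        show (c * a (B.vv w)) * y.1 w = c * (a (B.vv w) * y.1 w)
        ring)
      (fun a y z => by
        ext w
        show a (B.vv w) * (y.1 w + z.1 w) = a (B.vv w) * y.1 w + a (B.vv w) * z.1 w
        ring)
      (fun c a y => by
        ext w
        show a (B.vv w) * (c * y.1 w) = c * (a (B.vv w) * y.1 w)
        ring))
    1 (fun a f => by
      rw [one_mul]
      refine (ContinuousMap.norm_le _ (by positivity)).2 fun w => ?_
      show ‖a (B.vv w) * f.1 w‖ ≤ _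
      rw [norm_mul]
      exact mul_le_mul (a.norm_coe_le_norm _) (f.1.norm_coe_le_norm _) (norm_nonneg _)
        (norm_nonneg _))

@[simp] lemma lam_apply (O : Set Ω) (hO : O ⊆ B.U) (a : C(Ω, ℂ)) (f : C0 O) (w : Ω) :
    (B.lam O hO a f).1 w = a (B.vv w) * f.1 w := rfl

/-- the bimodule `C0 O` with the left action through the points `pt i` and the usual right
action -/
def Y (O : Set Ω) (hO : O ⊆ B.U) : Bim C(Ω, ℂ) C(Ω, ℂ) where
  carrier := C0 O
  left := B.lam O hO
  right := mulC O
  left_mul a b x := by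
    ext w
    show (a * b) (B.vv w) * x.1 w = a (B.vv w) * (b (B.vv w) * x.1 w)
    rw [ContinuousMap.mul_apply]
    ring
  right_mul a b x := by
    ext w
    show (a * b) w * x.1 w = b w * (a w * x.1 w)
    rw [ContinuousMap.mul_apply]
    ring
  left_right a b x := by
    ext w
    show a (B.vv w) * (b w * x.1 w) = b w * (a (B.vv w) * x.1 w)
    ring

/-- the bimodule `C0 U` with both actions through the points `pt i` -/
def LL : Bim C(Ω, ℂ) C(Ω, ℂ) where
  carrier := C0 B.U
  left := B.lam B.U subset_rfl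
  right := B.lam B.U subset_rfl
  left_mul a b x := by
    ext w
    show (a * b) (B.vv w) * x.1 w = a (B.vv w) * (b (B.vv w) * x.1 w)
    rw [ContinuousMap.mul_apply]
    ring
  right_mul a b x := by
    ext w
    show (a * b) (B.vv w) * x.1 w = b (B.vv w) * (a (B.vv w) * x.1 w)
    rw [ContinuousMap.mul_apply]
    ring
  left_right a b x := by
    ext w
    show a (B.vv w) * (b (B.vv w) * x.1 w) = b (B.vv w) * (a (B.vv w) * x.1 w)
    ring

/-- the functions in `C0 U` which are constant on every `V i` -/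
def XS : Submodule ℂ (C0 B.U) where
  carrier := {f | ∀ w, f.1 w = f.1 (B.vv w)}
  add_mem' {f g} h1 h2 w := by
    show f.1 w + g.1 w = f.1 (B.vv w) + g.1 (B.vv w)
    rw [h1 w, h2 w]
  zero_mem' _ := rfl
  smul_mem' c f h w := by
    show c * f.1 w = c * f.1 (B.vv w)
    rw [h w]

lemma isClosed_XS : IsClosed (B.XS : Set (C0 B.U)) := by
  have : (B.XS : Set (C0 B.U)) = ⋂ w, {f | f.1 w = f.1 (B.vv w)} := by
    ext f
    simp only [Set.mem_iInter]
    exact Iff.rfl
  rw [this]
  exact isClosed_iInter fun w => isClosed_eq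
    ((ContinuousMap.evalCLM ℂ w).continuous.comp continuous_subtype_val)
    ((ContinuousMap.evalCLM ℂ (B.vv w)).continuous.comp continuous_subtype_val)

lemma vv_vv (w : Ω) : B.vv (B.vv w) = B.vv w := by
  by_cases h : ∃ i, w ∈ B.V i
  · obtain ⟨i, hi⟩ := h
    rw [B.vv_of_mem hi, B.vv_of_mem (B.mem i)]
  · have h0 : w ∉ B.U := fun h' => h (Set.mem_iUnion.1 h')
    rw [B.vv_of_not_mem h0, B.vv_of_not_mem h0]

/-- the bimodule `c_0(I)` (as functions constant on every `V i`) -/
def X : Bim C(Ω, ℂ) C(Ω, ℂ) :=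
  Bim.sub B.LL B.XS B.isClosed_XS
    (fun a y hy w => by
      show a (B.vv w) * y.1 w = a (B.vv (B.vv w)) * y.1 (B.vv w)
      rw [B.vv_vv, hy w])
    (fun a y hy w => by
      show a (B.vv w) * y.1 w = a (B.vv (B.vv w)) * y.1 (B.vv w)
      rw [B.vv_vv, hy w])

end PBlk

end

end Pool.Agent.W667.DT
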