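import Mathlib
import Pool.Agent.W667.DT.Defs2

set_option autoImplicit false
set_option maxSynthPendingDepth 3
set_option linter.unusedSectionVars false
set_option linter.unusedVariables false

/-!
Project DT: the bidimension of `C(Ω)` is never three. Statements of the parts.
-/

namespace Pool.Agent.W667.DT

open Pool.Agent.Helper832.GD Pool.Agent.Helper832.GD.Bim ContinuousLinearMap Topology Filter

noncomputable section

/-! ### The lower bound: `Ω \ {p}` not a disjoint union of clopen sets -/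

/-- MAT: the triangular truncation is unbounded (dual form). -/
def S_MAT : Prop := ∀ c : ℝ, ∃ (N : ℕ) (M : Fin N → Fin N → ℝ),
  (∀ u v : Fin N → ℂ, (∀ i, ‖u i‖ ≤ 1) → (∀ j, ‖v j‖ ≤ 1) →
    ‖∑ i, ∑ j, (M i j : ℂ) * u i * v j‖ ≤ 1) ∧
  c < ∑ i, ∑ j, if i ≤ j then M i j else 0

/-- MODELS: chains of models. -/
def S_MODELS : Prop := ∀ (Ω : Type) [TopologicalSpace Ω] [CompactSpace Ω] [T2Space Ω]
  [TotallyDisconnectedSpace Ω] (p : Ω) (F : ℕ → Set Ω → Set Ω → Set Ω → Set Ω),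
  (∀ n C₁ C₂ C₃, IsClopen C₁ → p ∉ C₁ → IsClopen C₂ → p ∉ C₂ → IsClopen C₃ → p ∉ C₃ →
    IsClopen (F n C₁ C₂ C₃) ∧ p ∉ F n C₁ C₂ C₃) →
  ¬ DU ({p}ᶜ : Set Ω) → Nonempty (Chain p F)

/-- the identity satisfied by the alternated solution of the cocycle equation -/
def PsiId {Ω : Type} [TopologicalSpace Ω] [CompactSpace Ω] [T2Space Ω] (p : Ω)
    (Ψ : C(Ω, ℂ) →L[ℂ] C(Ω, ℂ) →L[ℂ] C(Ω, ℂ) →L[ℂ] Tens (KS p) (KS p)) : Prop :=
  ∀ (a e f b : C(Ω, ℂ)) (y x y' x' : Ω),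
    a p = 0 → e p = 0 → f p = 0 → b p = 0 →
    a y = 1 → a x = 0 → a y' = 0 → a x' = 0 →
    e y = 1 → e x = 1 → e y' = 0 → e x' = 0 →
    f y = 0 → f x = 0 → f y' = 1 → f x' = 1 →
    b y = 0 → b x = 0 → b y' = 1 → b x' = 0 →
    E4 p (y, x) (y', x') (Ψ e f b) - E4 p (y, x) (y', x') (Ψ a f b)
      - E4 p (y, x) (y', x') (Ψ a e b) + E4 p (y, x) (y', x') (Ψ a e f) = 1

/-- PSI: from a resolution of length three to the alternated solution. -/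
def S_PSI : Prop := ∀ (Ω : Type) [TopologicalSpace Ω] [CompactSpace Ω] [T2Space Ω] (p : Ω),
  (plusBim C(Ω, ℂ)).HasResolution 3 → ∃ Ψ, PsiId p Ψ

/-- SUPP: elements of the tensor product have countable supports. -/
def S_SUPP : Prop := ∀ (Ω : Type) [TopologicalSpace Ω] [CompactSpace Ω] [T2Space Ω]
  [TotallyDisconnectedSpace Ω] (p : Ω) (t : Tens (KS p) (KS p)),
  ∃ D : ℕ → Set Ω, (∀ n, IsClopen (D n) ∧ p ∉ D n) ∧
    ∀ y x y' x' : Ω, (x ∉ ⋃ n, D n) ∨ (x' ∉ ⋃ n, D n) → E4 p (y, x) (y', x') t = 0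

/-- the support condition for the operations `F n` -/
def SuppCond {Ω : Type} [TopologicalSpace Ω] [CompactSpace Ω] [T2Space Ω] (p : Ω)
    (Ψ : C(Ω, ℂ) →L[ℂ] C(Ω, ℂ) →L[ℂ] C(Ω, ℂ) →L[ℂ] Tens (KS p) (KS p))
    (F : ℕ → Set Ω → Set Ω → Set Ω → Set Ω) : Prop :=
  ∀ C₁ C₂ C₃, IsClopen C₁ → p ∉ C₁ → IsClopen C₂ → p ∉ C₂ → IsClopen C₃ → p ∉ C₃ →
    ∀ y x y' x' : Ω, (x ∉ ⋃ n, F n C₁ C₂ C₃) ∨ (x' ∉ ⋃ n, F n C₁ C₂ C₃) →
      E4 p (y, x) (y', x') (Ψ (ind C₁) (ind C₂) (ind C₃)) = 0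

/-- DOUBLE: the contradiction by double limits. -/
def S_DOUBLE : Prop := S_MAT → ∀ (Ω : Type) [TopologicalSpace Ω] [CompactSpace Ω] [T2Space Ω]
  (p : Ω) (Ψ : C(Ω, ℂ) →L[ℂ] C(Ω, ℂ) →L[ℂ] C(Ω, ℂ) →L[ℂ] Tens (KS p) (KS p))
  (F : ℕ → Set Ω → Set Ω → Set Ω → Set Ω),
  PsiId p Ψ → SuppCond p Ψ F → Chain p F → False

/-! ### Infinite height -/

/-- KM: properties of the maps `km`. -/
def S_KM : Prop := ∀ (A A' A'' : Type) [NonUnitalNormedRing A] [NormedSpace ℂ A]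
  [IsScalarTower ℂ A A] [SMulCommClass ℂ A A] [CompleteSpace A] [NonUnitalNormedRing A']
  [NormedSpace ℂ A'] [IsScalarTower ℂ A' A'] [SMulCommClass ℂ A' A'] [CompleteSpace A']
  [NonUnitalNormedRing A''] [NormedSpace ℂ A''] [IsScalarTower ℂ A'' A'']
  [SMulCommClass ℂ A'' A''] [CompleteSpace A''] (n : ℕ),
  (∀ φ : A →L[ℂ] A', (∀ a b, φ (a * b) = φ a * φ b) →
    (∀ a x, km φ n ((Kp n (plusBim A)).left a x)
      = (Kp n (plusBim A')).left (φ a) (km φ n x)) ∧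
    (∀ a x, km φ n ((Kp n (plusBim A)).right a x)
      = (Kp n (plusBim A')).right (φ a) (km φ n x))) ∧
  (∀ φ : A →L[ℂ] A', ‖φ‖ ≤ 1 → ‖km φ n‖ ≤ 1) ∧
  (∀ (φ : A →L[ℂ] A') (ψ : A' →L[ℂ] A'') (x), km (ψ.comp φ) n x = km ψ n (km φ n x)) ∧
  (∀ x, km (ContinuousLinearMap.id ℂ A) n x = x) ∧
  (∀ (ι : Type) (L : Filter ι) (φ : ι → A →L[ℂ] A') (φ₀ : A →L[ℂ] A'), (∀ i, ‖φ i‖ ≤ 1) →
    (∀ a, Tendsto (fun i => φ i a) L (𝓝 (φ₀ a))) →
    ∀ x, Tendsto (fun i => km (φ i) n x) L (𝓝 (km φ₀ n x))) ∧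
  (∀ φ : A →L[ℂ] A', FiniteDimensional ℂ (LinearMap.range φ.toLinearMap) →
    FiniteDimensional ℂ (LinearMap.range (km φ n).toLinearMap))

/-- STEP: one step of the embedding of the dyadic tree. -/
def S_STEP : Prop := ∀ (Ω : Type) [TopologicalSpace Ω] [CompactSpace Ω] [T2Space Ω]
  [TotallyDisconnectedSpace Ω] (r k : ℕ) (S : Stage Ω (r + 1) k) (O : (Fin k → Bool) → Set Ω),
  (∀ s, IsOpen (O s) ∧ S.y s ∈ O s) →
  ∃ S' : Stage Ω r (k + 1), (∀ w, Fin.init (S'.q w) = S.q w) ∧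
    (∀ s, S'.y (Fin.snoc s false) = S.y s) ∧ ∀ s, S'.y (Fin.snoc s true) ∈ O s

/-- LIM: spaces of infinite height are at least as bad as the Cantor space. -/
def S_LIM : Prop := S_KM → S_STEP → ∀ (Ω : Type) [TopologicalSpace Ω] [CompactSpace Ω]
  [T2Space Ω] [TotallyDisconnectedSpace Ω] (n : ℕ), (∀ r, (Dr Ω r).Nonempty) →
  (plusBim C(Ω, ℂ)).HasResolution n → (plusBim C(Cantor, ℂ)).HasResolution n

/-! ### The upper bound -/

/-- HS: the horseshoe lemma. -/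
def S_HS : Prop := ∀ (A : Type) [NonUnitalNormedRing A] [NormedSpace ℂ A]
  [IsScalarTower ℂ A A] [SMulCommClass ℂ A A] (n : ℕ) (X' X X'' : Bim A A),
  SE X' X X'' → Dn n X' → Dn n X'' → Dn n X

/-- QT: quotients. -/
def S_QT : Prop := ∀ (A : Type) [NonUnitalNormedRing A] [NormedSpace ℂ A]
  [IsScalarTower ℂ A A] [SMulCommClass ℂ A A] (n : ℕ) (X' X X'' : Bim A A),
  SE X' X X'' → Dn n X' → Dn (n + 1) X → Dn (n + 1) X''

/-- MONO: monotonicity. -/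
def S_MONO : Prop := ∀ (A : Type) [NonUnitalNormedRing A] [NormedSpace ℂ A]
  [IsScalarTower ℂ A A] [SMulCommClass ℂ A A] (n : ℕ) (X : Bim A A), Dn n X → Dn (n + 1) X

/-- RES: resolutions. -/
def S_RES : Prop := ∀ (A : Type) [NonUnitalNormedRing A] [NormedSpace ℂ A]
  [IsScalarTower ℂ A A] [SMulCommClass ℂ A A] (n : ℕ) (X : Bim A A), Dn n X → X.HasResolution n

/-- PLUS: from the algebra to its unitization. -/
def S_PLUS : Prop := ∀ (Ω : Type) [TopologicalSpace Ω] [CompactSpace Ω] [T2Space Ω] (n : ℕ),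
  Dn n (Ib (Set.univ : Set Ω)) → Dn n (plusBim C(Ω, ℂ))

/-- PROJ: projectivity of the block diagonal parts. -/
def S_PROJ : Prop := ∀ (Ω : Type) [TopologicalSpace Ω] [CompactSpace Ω] [T2Space Ω] (S : Type)
  (B B' : Blk Ω S), (PB B B').Projective

/-- SEQ1: the first exact sequence. -/
def S_SEQ1 : Prop := ∀ (Ω : Type) [TopologicalSpace Ω] [CompactSpace Ω] [T2Space Ω]
  (B : PBlk Ω) (B₁ B' : Blk Ω B.I) (_ : ∀ j, B₁.V j ⊆ B.V (B₁.l j)) (_ : B₁.U = B.U')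
  (_ : ∀ j, B'.V j ⊆ B.V (B'.l j)) (h : B'.U ⊆ B.U),
  SE (PB B₁ B') (PB B.toBlk B') (B.Y B'.U h)

/-- SEQ2: the second exact sequence. -/
def S_SEQ2 : Prop := ∀ (Ω : Type) [TopologicalSpace Ω] [CompactSpace Ω] [T2Space Ω]
  (B : PBlk Ω), SE (B.Y B.U' B.U'_sub) (B.Y B.U subset_rfl) B.X

/-- SEQ3: the third exact sequence. -/
def S_SEQ3 : Prop := ∀ (Ω : Type) [TopologicalSpace Ω] [CompactSpace Ω] [T2Space Ω]
  (B : PBlk Ω), SE (Ib B.U') (Ib B.U) B.X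

/-- LEVEL: one level of the tree. -/
def S_LEVEL : Prop := ∀ (Ω : Type) [TopologicalSpace Ω] [CompactSpace Ω] [T2Space Ω]
  (B : PBlk Ω) (B₁ : Blk Ω B.I) (_ : ∀ j, B₁.V j ⊆ B.V (B₁.l j)) (_ : B₁.U = B.U'),
  Dn 2 (Ib B.U') → Dn 2 (Ib B.U)

/-- IND: induction over the height. -/
def S_IND : Prop := S_LEVEL → ∀ (Ω : Type) [TopologicalSpace Ω] [CompactSpace Ω] [T2Space Ω]
  [TotallyDisconnectedSpace Ω], (∀ p : Ω, DU ({p}ᶜ : Set Ω)) → ∀ h : ℕ, Dr Ω h = ∅ →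
  Dn 2 (Ib (Set.univ : Set Ω))

end

end Pool.Agent.W667.DT
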