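import Mathlib
import Pool.Agent.W667.DT.Stms

set_option autoImplicit false
set_option maxSynthPendingDepth 3
set_option linter.unusedSectionVars false
set_option linter.unusedVariables false

/-!
Project DT: one level of the tree.
-/

namespace Pool.Agent.W667.DT

open Pool.Agent.Helper832.GD Pool.Agent.Helper832.GD.Bim ContinuousLinearMap

theorem level (proj : S_PROJ) (seq1 : S_SEQ1) (seq2 : S_SEQ2) (seq3 : S_SEQ3) (hs : S_HS)
    (qt : S_QT) (mono : S_MONO) : S_LEVEL := by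
  intro Ω _ _ _ B B₁ hB hU h
  have hsub : B₁.U ⊆ B.U := by
    rw [hU]
    exact B.U'_sub
  have y1 : ∀ (B' : Blk Ω B.I) (_ : ∀ j, B'.V j ⊆ B.V (B'.l j)) (h : B'.U ⊆ B.U),
      Dn 1 (B.Y B'.U h) := fun B' hB' h =>
    ⟨PB B.toBlk B', PB B₁ B', proj _ _ _ _, proj _ _ _ _, seq1 Ω B B₁ B' hB hU hB' h⟩
  have y2 : Dn 1 (B.Y B.U subset_rfl) := y1 B.toBlk (fun j => subset_rfl) subset_rfl
  have y3 : Dn 1 (B.Y B.U' B.U'_sub) := by
    have h1 := y1 B₁ hB hsub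
    have e : ∀ (O : Set Ω) (h : O ⊆ B.U) (_ : O = B.U'), Dn 1 (B.Y O h) →
        Dn 1 (B.Y B.U' B.U'_sub) := by
      rintro O h rfl h2
      exact h2
    exact e _ _ hU h1
  have x1 : Dn 2 B.X := qt _ 1 _ _ _ (seq2 Ω B) y3 (mono _ 1 _ y2)
  exact hs _ 2 _ _ _ (seq3 Ω B) h x1

end Pool.Agent.W667.DT
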