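import Mathlib
import Pool.Agent.Helper832.RDH

set_option autoImplicit false
set_option maxSynthPendingDepth 3
set_option linter.unusedSectionVars false
set_option linter.unusedVariables false

/-!
Project DT: a resolution of length three and four-dimensional cocycles.
-/

namespace Pool.Agent.W667.DT

open Pool.Agent.Helper832.GD Pool.Agent.Helper832.GD.Bim ContinuousLinearMap

variable {A : Type} [NonUnitalNormedRing A] [NormedSpace ℂ A] [IsScalarTower ℂ A A]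
  [SMulCommClass ℂ A A] [CompleteSpace A]

/-- dimension at most three: four-dimensional cocycles are coboundaries -/
theorem cob3 (h : (plusBim A).HasResolution 3) (Z : Bim A A)
    (F : A →L[ℂ] A →L[ℂ] A →L[ℂ] A →L[ℂ] Z.carrier)
    (hF : ∀ a a₄ a₃ a₂ a₁, F (a₄ * a) a₃ a₂ a₁ - (F a (a₃ * a₄) a₂ a₁
      - (F a a₄ (a₂ * a₃) a₁ - (F a a₄ a₃ (a₁ * a₂) - Z.left a₁ (F a a₄ a₃ a₂)))) =
      Z.right a (F a₄ a₃ a₂ a₁)) :
    ∃ G : A →L[ℂ] A →L[ℂ] A →L[ℂ] Z.carrier, ∀ a₄ a₃ a₂ a₁,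
      G (a₃ * a₄) a₂ a₁ - (G a₄ (a₂ * a₃) a₁ - (G a₄ a₃ (a₁ * a₂) - Z.left a₁ (G a₄ a₃ a₂)))
        - Z.right a₄ (G a₃ a₂ a₁) = F a₄ a₃ a₂ a₁ := by
  have hv : VanY Z.N.N.N (plusBim A) := van_of_hasResolution 3 plusBim_rproj h Z
  let w : Z.N.N.N.N.carrier := F
  have hw : ∀ a₄ a₃ a₂ a₁, Z.ev a₁ (Z.N.ev a₂ (Z.N.N.ev a₃ (Z.N.N.N.ev a₄ w))) =
    F a₄ a₃ a₂ a₁ := fun _ _ _ _ => rfl
  obtain ⟨g, hg⟩ := Pool.Agent.Helper832.RD.vanY_key Z.N.N.N hv w (by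
    intro a
    refine N_ext (fun a₄ => N_ext (Z := Z.N.N) (fun a₃ => N_ext (Z := Z.N) (fun a₂ =>
      N_ext (Z := Z) (fun a₁ => ?_))))
    rw [ev_left, map_sub, map_sub, map_sub, ev_left, map_sub, map_sub, ev_left, map_sub,
      ev_left, ev_right, ev_right, ev_right, ev_right, hw, hw, hw, hw, hw, hw]
    exact hF a a₄ a₃ a₂ a₁)
  have hgG : ∃ G : A →L[ℂ] A →L[ℂ] A →L[ℂ] Z.carrier,
      ∀ a₃ a₂ a₁, Z.ev a₁ (Z.N.ev a₂ (Z.N.N.ev a₃ g)) = G a₃ a₂ a₁ :=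
    ⟨g, fun _ _ _ => rfl⟩
  obtain ⟨G, hG⟩ := hgG
  refine ⟨G, fun a₄ a₃ a₂ a₁ => ?_⟩
  have h1 : Z.N.N.N.left a₄ g - Z.N.N.N.right a₄ g = Z.N.N.N.ev a₄ w := hg a₄
  have h2 : Z.ev a₁ (Z.N.ev a₂ (Z.N.N.ev a₃
      (Z.N.N.N.left a₄ g - Z.N.N.N.right a₄ g))) = F a₄ a₃ a₂ a₁ := by rw [h1, hw]
  rw [map_sub, map_sub, map_sub, ev_left, map_sub, map_sub, ev_left, map_sub,
    ev_left, ev_right, ev_right, ev_right, hG, hG, hG, hG, hG] at h2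
  exact h2

end Pool.Agent.W667.DT
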