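import Mathlib
import Pool.Agent.W667.DT.Stms
import Pool.Agent.Helper832.RDH

set_option autoImplicit false
set_option maxSynthPendingDepth 3
set_option linter.unusedSectionVars false
set_option linter.unusedVariables false
set_option linter.unusedSimpArgs false

/-!
Project DT: from a resolution of length three to the alternated solution.
-/

namespace Pool.Agent.W667.DT

open Pool.Agent.Helper832.GD Pool.Agent.Helper832.GD.Bim ContinuousLinearMap

noncomputable section

variable {Ω : Type} [TopologicalSpace Ω] [CompactSpace Ω] [T2Space Ω]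

/-- multiplication by functions of the first variable -/
def mulK (p : Ω) : C(Ω, ℂ) →L[ℂ] KS p →L[ℂ] KS p :=
  LinearMap.mkContinuous₂
    (LinearMap.mk₂ ℂ (fun (a : C(Ω, ℂ)) (k : KS p) =>
        (⟨a.comp ⟨Prod.fst, continuous_fst⟩ * k.1,
          fun y => by simp [k.2.1 y], fun y => by simp [k.2.2 y]⟩ : KS p))
      (fun a b y => by ext w; simp [add_mul])
      (fun c a y => by
        ext w
        show (c * a w.1) * y.1 w = c * (a w.1 * y.1 w)
        ring)
      (fun a y z => by ext w; simp [mul_add])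
      (fun c a y => by
        ext w
        show a w.1 * (c * y.1 w) = c * (a w.1 * y.1 w)
        ring))
    1 (fun a k => by
      rw [one_mul]
      refine (ContinuousMap.norm_le _ (by positivity)).2 fun w => ?_
      show ‖a w.1 * k.1 w‖ ≤ _
      rw [norm_mul]
      exact mul_le_mul (a.norm_coe_le_norm _) (k.1.norm_coe_le_norm _) (norm_nonneg _)
        (norm_nonneg _))

@[simp] lemma mulK_apply (p : Ω) (a : C(Ω, ℂ)) (k : KS p) (w : Ω × Ω) :
    (mulK p a k).1 w = a w.1 * k.1 w := rfl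

lemma mulK_mul (p : Ω) (a b : C(Ω, ℂ)) (k : KS p) : mulK p (a * b) k = mulK p a (mulK p b k) := by
  ext w
  show (a * b) w.1 * k.1 w = a w.1 * (b w.1 * k.1 w)
  rw [ContinuousMap.mul_apply]
  ring

/-- the left action -/
def zl (p : Ω) : C(Ω, ℂ) →L[ℂ] Tens (KS p) (KS p) →L[ℂ] Tens (KS p) (KS p) :=
  (tmapL.flip (ContinuousLinearMap.id ℂ (KS p))).comp (mulK p)

/-- the right action -/
def zr (p : Ω) : C(Ω, ℂ) →L[ℂ] Tens (KS p) (KS p) →L[ℂ] Tens (KS p) (KS p) :=
  (tmapL (ContinuousLinearMap.id ℂ (KS p))).comp (mulK p)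

@[simp] lemma zl_tens (p : Ω) (a : C(Ω, ℂ)) (k k' : KS p) :
    zl p a (tens k k') = tens (mulK p a k) k' := tmapL_tens _ _ _ _

@[simp] lemma zr_tens (p : Ω) (a : C(Ω, ℂ)) (k k' : KS p) :
    zr p a (tens k k') = tens k (mulK p a k') := tmapL_tens _ _ _ _

/-- the bimodule -/
def ZZ (p : Ω) : Bim C(Ω, ℂ) C(Ω, ℂ) where
  carrier := Tens (KS p) (KS p)
  left := zl p
  right := zr p
  left_mul a b x := by
    have : zl p (a * b) = (zl p a).comp (zl p b) :=
      tens_ext fun k k' => by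
        rw [comp_apply, zl_tens, zl_tens, zl_tens, mulK_mul]
    rw [this]
    rfl
  right_mul a b x := by
    have : zr p (a * b) = (zr p b).comp (zr p a) :=
      tens_ext fun k k' => by
        rw [comp_apply, zr_tens, zr_tens, zr_tens, mul_comm a b, mulK_mul]
    rw [this]
    rfl
  left_right a b x := by
    have : (zl p a).comp (zr p b) = (zr p b).comp (zl p a) :=
      tens_ext fun k k' => by
        rw [comp_apply, comp_apply, zl_tens, zr_tens, zr_tens, zl_tens]
    exact congrArg (fun f : Tens (KS p) (KS p) →L[ℂ] Tens (KS p) (KS p) => f x) this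

lemma E4_zl (p : Ω) (w w' : Ω × Ω) (a : C(Ω, ℂ)) (t : Tens (KS p) (KS p)) :
    E4 p w w' (zl p a t) = a w.1 * E4 p w w' t := by
  have : (E4 p w w').comp (zl p a) = a w.1 • E4 p w w' := tens_ext fun k k' => by
    rw [comp_apply, zl_tens, E4_tens, smul_apply, E4_tens, mulK_apply, smul_eq_mul, mul_assoc]
  exact congrArg (fun f : Tens (KS p) (KS p) →L[ℂ] ℂ => f t) this

lemma E4_zr (p : Ω) (w w' : Ω × Ω) (a : C(Ω, ℂ)) (t : Tens (KS p) (KS p)) :
    E4 p w w' (zr p a t) = a w'.1 * E4 p w w' t := by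
  have : (E4 p w w').comp (zr p a) = a w'.1 • E4 p w w' := tens_ext fun k k' => by
    rw [comp_apply, zr_tens, E4_tens, smul_apply, E4_tens, mulK_apply, smul_eq_mul]
    ring
  exact congrArg (fun f : Tens (KS p) (KS p) →L[ℂ] ℂ => f t) this

/-- the first cocycle, with the arguments exchanged -/
def c1 (p : Ω) : C(Ω, ℂ) →L[ℂ] C(Ω, ℂ) →L[ℂ] KS p :=
  LinearMap.mkContinuous₂
    (LinearMap.mk₂ ℂ (fun (b a : C(Ω, ℂ)) =>
        (⟨⟨fun w => (a w.1 - a w.2) * (b w.2 - b p), by fun_prop⟩,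
          fun y => by simp, fun y => by simp⟩ : KS p))
      (fun a b y => by
        ext w
        show (y w.1 - y w.2) * ((a w.2 + b w.2) - (a p + b p)) =
          (y w.1 - y w.2) * (a w.2 - a p) + (y w.1 - y w.2) * (b w.2 - b p)
        ring)
      (fun c a y => by
        ext w
        show (y w.1 - y w.2) * (c * a w.2 - c * a p) = c * ((y w.1 - y w.2) * (a w.2 - a p))
        ring)
      (fun a y z => by
        ext w
        show ((y w.1 + z w.1) - (y w.2 + z w.2)) * (a w.2 - a p) =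
          (y w.1 - y w.2) * (a w.2 - a p) + (z w.1 - z w.2) * (a w.2 - a p)
        ring)
      (fun c a y => by
        ext w
        show (c * y w.1 - c * y w.2) * (a w.2 - a p) = c * ((y w.1 - y w.2) * (a w.2 - a p))
        ring))
    4 (fun b a => by
      refine (ContinuousMap.norm_le _ (by positivity)).2 fun w => ?_
      show ‖(a w.1 - a w.2) * (b w.2 - b p)‖ ≤ _
      rw [norm_mul]
      have h1 : ‖a w.1 - a w.2‖ ≤ 2 * ‖a‖ := by
        have := norm_sub_le (a w.1) (a w.2)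
        have h2 := a.norm_coe_le_norm w.1
        have h3 := a.norm_coe_le_norm w.2
        linarith
      have h4 : ‖b w.2 - b p‖ ≤ 2 * ‖b‖ := by
        have := norm_sub_le (b w.2) (b p)
        have h2 := b.norm_coe_le_norm w.2
        have h3 := b.norm_coe_le_norm p
        linarith
      calc _ ≤ (2 * ‖a‖) * (2 * ‖b‖) := mul_le_mul h1 h4 (norm_nonneg _) (by positivity)
        _ = _ := by ring)

lemma c1_apply (p : Ω) (b a : C(Ω, ℂ)) (w : Ω × Ω) :
    (c1 p b a).1 w = (a w.1 - a w.2) * (b w.2 - b p) := rfl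

/-- for a fixed second factor, the first factor as a function of two arguments -/
def Gk (p : Ω) : KS p →L[ℂ] C(Ω, ℂ) →L[ℂ] C(Ω, ℂ) →L[ℂ] Tens (KS p) (KS p) :=
  ((compL ℂ C(Ω, ℂ) (C(Ω, ℂ) →L[ℂ] KS p) (C(Ω, ℂ) →L[ℂ] Tens (KS p) (KS p))).flip
    (c1 p)).comp ((compL ℂ C(Ω, ℂ) (KS p) (Tens (KS p) (KS p))).comp tens.flip)

/-- the product of the two cocycles, with the arguments in the opposite order -/
def w4 (p : Ω) : C(Ω, ℂ) →L[ℂ] C(Ω, ℂ) →L[ℂ] C(Ω, ℂ) →L[ℂ] C(Ω, ℂ) →L[ℂ]
    Tens (KS p) (KS p) :=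
  ((compL ℂ C(Ω, ℂ) (KS p) (C(Ω, ℂ) →L[ℂ] C(Ω, ℂ) →L[ℂ] Tens (KS p) (KS p))) (Gk p)).comp
    (c1 p).flip

lemma w4_apply (p : Ω) (a₄ a₃ a₂ a₁ : C(Ω, ℂ)) :
    w4 p a₄ a₃ a₂ a₁ = tens (c1 p a₂ a₁) (c1 p a₃ a₄) := rfl

end

end Pool.Agent.W667.DT
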