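import Mathlib
import Pool.Agent.W667.DT.Psi0
import Pool.Agent.W667.DT.Cob

set_option autoImplicit false
set_option maxSynthPendingDepth 3
set_option linter.unusedSectionVars false
set_option linter.unusedVariables false
set_option linter.unusedSimpArgs false

/-!
Project DT: from a resolution of length three to the alternated solution, continued.
-/

namespace Pool.Agent.W667.DT

open Pool.Agent.Helper832.GD Pool.Agent.Helper832.GD.Bim ContinuousLinearMap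

noncomputable section

variable {Ω : Type} [TopologicalSpace Ω] [CompactSpace Ω] [T2Space Ω]

/-- the scalar form of the cocycle equation -/
def Star (p : Ω) (G : C(Ω, ℂ) →L[ℂ] C(Ω, ℂ) →L[ℂ] C(Ω, ℂ) →L[ℂ] Tens (KS p) (KS p)) : Prop :=
  ∀ (a₁ a₂ a₃ a₄ : C(Ω, ℂ)) (w w' : Ω × Ω),
    (a₁ w.1 - a₁ w.2) * (a₂ w.2 - a₂ p) * ((a₄ w'.1 - a₄ w'.2) * (a₃ w'.2 - a₃ p)) =
      E4 p w w' (G (a₃ * a₄) a₂ a₁) - E4 p w w' (G a₄ (a₂ * a₃) a₁)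
        + E4 p w w' (G a₄ a₃ (a₁ * a₂)) - a₁ w.1 * E4 p w w' (G a₄ a₃ a₂)
        - a₄ w'.1 * E4 p w w' (G a₃ a₂ a₁)

lemma w4_cocycle (p : Ω) (a a₄ a₃ a₂ a₁ : C(Ω, ℂ)) :
    w4 p (a₄ * a) a₃ a₂ a₁ - (w4 p a (a₃ * a₄) a₂ a₁
      - (w4 p a a₄ (a₂ * a₃) a₁ - (w4 p a a₄ a₃ (a₁ * a₂) - zl p a₁ (w4 p a a₄ a₃ a₂)))) =
      zr p a (w4 p a₄ a₃ a₂ a₁) := by
  simp only [w4_apply]
  rw [zl_tens, zr_tens]
  have e1 : c1 p (a₂ * a₃) a₁ = (a₃ p) • c1 p a₂ a₁ + c1 p a₃ (a₁ * a₂)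
      - mulK p a₁ (c1 p a₃ a₂) := by
    ext v
    show (a₁ v.1 - a₁ v.2) * (a₂ v.2 * a₃ v.2 - a₂ p * a₃ p) =
      a₃ p * ((a₁ v.1 - a₁ v.2) * (a₂ v.2 - a₂ p))
        + (a₁ v.1 * a₂ v.1 - a₁ v.2 * a₂ v.2) * (a₃ v.2 - a₃ p)
        - a₁ v.1 * ((a₂ v.1 - a₂ v.2) * (a₃ v.2 - a₃ p))
    ring
  have e2 : c1 p (a₃ * a₄) a = c1 p a₃ (a₄ * a) - mulK p a (c1 p a₃ a₄)
      + a₃ p • c1 p a₄ a := by
    ext v
    show (a v.1 - a v.2) * (a₃ v.2 * a₄ v.2 - a₃ p * a₄ p) =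
      (a₄ v.1 * a v.1 - a₄ v.2 * a v.2) * (a₃ v.2 - a₃ p)
        - a v.1 * ((a₄ v.1 - a₄ v.2) * (a₃ v.2 - a₃ p))
        + a₃ p * ((a v.1 - a v.2) * (a₄ v.2 - a₄ p))
    ring
  rw [e1, e2]
  simp only [map_add, map_sub, map_smul, add_apply, sub_apply, smul_apply]
  abel

lemma exists_star (p : Ω) (h : (plusBim C(Ω, ℂ)).HasResolution 3) : ∃ G, Star p G := by
  have hc : ∃ G : C(Ω, ℂ) →L[ℂ] C(Ω, ℂ) →L[ℂ] C(Ω, ℂ) →L[ℂ] Tens (KS p) (KS p),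
      ∀ a₄ a₃ a₂ a₁, G (a₃ * a₄) a₂ a₁ - (G a₄ (a₂ * a₃) a₁ - (G a₄ a₃ (a₁ * a₂) -
      zl p a₁ (G a₄ a₃ a₂))) - zr p a₄ (G a₃ a₂ a₁) =
      w4 p a₄ a₃ a₂ a₁ := cob3 h (ZZ p) (w4 p) (w4_cocycle p)
  obtain ⟨G, hG⟩ := hc
  refine ⟨G, fun a₁ a₂ a₃ a₄ v v' => ?_⟩
  have h3 := hG a₄ a₃ a₂ a₁
  rw [w4_apply] at h3
  have h4 := congrArg (E4 p v v') h3
  rw [map_sub, map_sub, map_sub, map_sub, E4_zl, E4_zr, E4_tens, c1_apply, c1_apply] at h4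
  linear_combination -h4

/-- exchange of the first two arguments -/
def s1 {E : Type} [NormedAddCommGroup E] [NormedSpace ℂ E]
    (T : C(Ω, ℂ) →L[ℂ] C(Ω, ℂ) →L[ℂ] C(Ω, ℂ) →L[ℂ] E) :
    C(Ω, ℂ) →L[ℂ] C(Ω, ℂ) →L[ℂ] C(Ω, ℂ) →L[ℂ] E := T.flip

/-- exchange of the last two arguments -/
def s2 {E : Type} [NormedAddCommGroup E] [NormedSpace ℂ E]
    (T : C(Ω, ℂ) →L[ℂ] C(Ω, ℂ) →L[ℂ] C(Ω, ℂ) →L[ℂ] E) :
    C(Ω, ℂ) →L[ℂ] C(Ω, ℂ) →L[ℂ] C(Ω, ℂ) →L[ℂ] E :=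
  (ContinuousLinearMap.flipₗᵢ ℂ C(Ω, ℂ) C(Ω, ℂ) E).toContinuousLinearEquiv.toContinuousLinearMap.comp T

lemma s1_apply {E : Type} [NormedAddCommGroup E] [NormedSpace ℂ E]
    (T : C(Ω, ℂ) →L[ℂ] C(Ω, ℂ) →L[ℂ] C(Ω, ℂ) →L[ℂ] E) (a b c) : s1 T a b c = T b a c := rfl

lemma s2_apply {E : Type} [NormedAddCommGroup E] [NormedSpace ℂ E]
    (T : C(Ω, ℂ) →L[ℂ] C(Ω, ℂ) →L[ℂ] C(Ω, ℂ) →L[ℂ] E) (a b c) : s2 T a b c = T a c b := rfl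

/-- the alternation -/
def alt {E : Type} [NormedAddCommGroup E] [NormedSpace ℂ E]
    (T : C(Ω, ℂ) →L[ℂ] C(Ω, ℂ) →L[ℂ] C(Ω, ℂ) →L[ℂ] E) :
    C(Ω, ℂ) →L[ℂ] C(Ω, ℂ) →L[ℂ] C(Ω, ℂ) →L[ℂ] E :=
  T - s1 T - s2 T + s2 (s1 T) + s1 (s2 T) - s1 (s2 (s1 T))

lemma alt_apply {E : Type} [NormedAddCommGroup E] [NormedSpace ℂ E]
    (T : C(Ω, ℂ) →L[ℂ] C(Ω, ℂ) →L[ℂ] C(Ω, ℂ) →L[ℂ] E) (a b c) :
    alt T a b c = T a b c - T b a c - T a c b + T c a b + T b c a - T c b a := rfl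

theorem psi : S_PSI := by
  intro Ω _ _ _ p h
  obtain ⟨G, hG⟩ := exists_star p h
  refine ⟨alt G, ?_⟩
  intro a e f b y x y' x' ap ep fp bp ay ax ay' ax' ey ex ey' ex' fy fx fy' fx' by' bx by'' bx'
  have H : ∀ a₁ a₂ a₃ a₄ : C(Ω, ℂ), _ := fun a₁ a₂ a₃ a₄ => hG a₁ a₂ a₃ a₄ (y, x) (y', x')
  set φ : C(Ω, ℂ) → C(Ω, ℂ) → C(Ω, ℂ) → ℂ := fun a₁ a₂ a₃ => E4 p (y, x) (y', x') (G a₁ a₂ a₃)
    with hφ
  have H' : ∀ a₁ a₂ a₃ a₄ : C(Ω, ℂ),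
      (a₁ y - a₁ x) * (a₂ x - a₂ p) * ((a₄ y' - a₄ x') * (a₃ x' - a₃ p)) =
      φ (a₃ * a₄) a₂ a₁ - φ a₄ (a₂ * a₃) a₁ + φ a₄ a₃ (a₁ * a₂) - a₁ y * φ a₄ a₃ a₂
        - a₄ y' * φ a₃ a₂ a₁ := H
  simp only [alt_apply, map_sub, map_add]
  show φ e f b - φ f e b - φ e b f + φ b e f + φ f b e - φ b f e
    - (φ a f b - φ f a b - φ a b f + φ b a f + φ f b a - φ b f a)
    - (φ a e b - φ e a b - φ a b e + φ b a e + φ e b a - φ b e a)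
    + (φ a e f - φ e a f - φ a f e + φ f a e + φ e f a - φ f e a) = 1
  clear_value φ
  have q1 := H' a e f b
  have q2 := H' a e b f
  have q3 := H' a f e b
  have q4 := H' a f b e
  have q5 := H' a b e f
  have q6 := H' a b f e
  have q7 := H' e a f b
  have q8 := H' e a b f
  have q9 := H' e f a b
  have q10 := H' e f b a
  have q11 := H' e b a f
  have q12 := H' e b f a
  have q13 := H' f a e b
  have q14 := H' f a b e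
  have q15 := H' f e a b
  have q16 := H' f e b a
  have q17 := H' f b a e
  have q18 := H' f b e a
  have q19 := H' b a e f
  have q20 := H' b a f e
  have q21 := H' b e a f
  have q22 := H' b e f a
  have q23 := H' b f a e
  have q24 := H' b f e a
  simp only [mul_comm e a, mul_comm f a, mul_comm b a, mul_comm f e, mul_comm b e, mul_comm b f]
    at q1 q2 q3 q4 q5 q6 q7 q8 q9 q10 q11 q12 q13 q14 q15 q16 q17 q18 q19 q20 q21 q22 q23 q24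
  simp only [ap, ep, fp, bp, ay, ax, ay', ax', ey, ex, ey', ex', fy, fx, fy', fx', by', bx, by'',
    bx', sub_zero, sub_self, mul_zero, zero_mul, mul_one, one_mul]
    at q1 q2 q3 q4 q5 q6 q7 q8 q9 q10 q11 q12 q13 q14 q15 q16 q17 q18 q19 q20 q21 q22 q23 q24
  linear_combination -(q1 - q2 - q3 + q4 + q5 - q6 - q7 + q8 + q9 - q10 - q11 + q12
    + q13 - q14 - q15 + q16 + q17 - q18 - q19 + q20 + q21 - q22 - q23 + q24)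

end

end Pool.Agent.W667.DT
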