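import Mathlib
import Pool.Agent.W667.DT.Stms

set_option autoImplicit false
set_option maxSynthPendingDepth 3
set_option linter.unusedSectionVars false
set_option linter.unusedVariables false

/-!
Project DT: statements of the Schur bounds.
-/

namespace Pool.Agent.W667.DT

open Pool.Agent.Helper832.GD Pool.Agent.Helper832.GD.Bim ContinuousLinearMap Topology Filter

noncomputable section

/-- the bilinear form of the matrix `M` is bounded by one on bounded sequences -/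
def FB {N : ℕ} (M : Fin N → Fin N → ℝ) : Prop :=
  ∀ u v : Fin N → ℂ, (∀ i, ‖u i‖ ≤ 1) → (∀ j, ‖v j‖ ≤ 1) →
    ‖∑ i, ∑ j, (M i j : ℂ) * u i * v j‖ ≤ 1

/-- SCHP: the Schur bound with one varying function. -/
def S_SCHP : Prop := ∀ (Ω : Type) [TopologicalSpace Ω] [CompactSpace Ω] [T2Space Ω] (p : Ω)
  (Ψ : C(Ω, ℂ) →L[ℂ] C(Ω, ℂ) →L[ℂ] C(Ω, ℂ) →L[ℂ] Tens (KS p) (KS p)) (N : ℕ)
  (M : Fin N → Fin N → ℝ) (_ : FB M) (w w' : Fin N → Ω × Ω) (e f : C(Ω, ℂ)) (_ : ‖e‖ ≤ 1)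
  (_ : ‖f‖ ≤ 1) (C : Fin N → Set Ω) (_ : Pairwise fun i j => Disjoint (C i) (C j)),
  ‖∑ k, ∑ l, (M k l : ℂ) * E4 p (w k) (w' l) (Ψ e f (ind (C l)))‖ ≤ ‖Ψ‖

/-- SCHS: the Schur bound with three varying functions. -/
def S_SCHS : Prop := ∀ (Ω : Type) [TopologicalSpace Ω] [CompactSpace Ω] [T2Space Ω] (p : Ω)
  (Ψ : C(Ω, ℂ) →L[ℂ] C(Ω, ℂ) →L[ℂ] C(Ω, ℂ) →L[ℂ] Tens (KS p) (KS p)) (N : ℕ)
  (M : Fin N → Fin N → ℝ) (_ : FB M) (w w' : Fin N → Ω × Ω) (C V C' : Fin N → Set Ω)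
  (_ : Pairwise fun i j => Disjoint (C i) (C j)) (_ : Pairwise fun i j => Disjoint (V i) (V j))
  (_ : Pairwise fun i j => Disjoint (C' i) (C' j)),
  ‖∑ i, ∑ j, (M i j : ℂ) * E4 p (w i) (w' j) (Ψ (ind (C i)) (ind (V j)) (ind (C' j)))‖ ≤ ‖Ψ‖

end

end Pool.Agent.W667.DT
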