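import Mathlib
import Pool.Agent.W667.DT.Stms2

set_option autoImplicit false
set_option maxSynthPendingDepth 3
set_option linter.unusedSectionVars false
set_option linter.unusedVariables false

/-!
Project DT: generic sequences and interchange of double limits.
-/

namespace Pool.Agent.W667.DT

open Topology Filter

/-- generic sequences -/
lemma choose_seq {Z : Type} (W : ℕ → Filter Z) (hW : ∀ t, (W t).NeBot) (Good : ℕ → Z → Prop)
    (hG : ∀ t, ∀ᶠ z in W t, Good t z) (Rel : ℕ → ℕ → Z → Z → Prop)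
    (hR : ∀ s t, s < t → ∀ z, Good s z → ∀ᶠ z' in W t, Rel s t z z') :
    ∃ z : ℕ → Z, (∀ t, Good t (z t)) ∧ ∀ s t, s < t → Rel s t (z s) (z t) := by
  classical
  have step : ∀ (t : ℕ) (g : ∀ s, s < t → Z), ∃ z' : Z, (∀ s (hs : s < t), Good s (g s hs)) →
      Good t z' ∧ ∀ s (hs : s < t), Rel s t (g s hs) z' := by
    intro t g
    by_cases h : ∀ s (hs : s < t), Good s (g s hs)
    · have h1 : ∀ᶠ z' in W t, Good t z' ∧ ∀ s : Fin t, Rel s t (g s s.2) z' :=
        (hG t).and (eventually_all.2 fun s => hR s t s.2 _ (h s s.2))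
      have := hW t
      obtain ⟨z', h2, h3⟩ := h1.exists
      exact ⟨z', fun _ => ⟨h2, fun s hs => h3 ⟨s, hs⟩⟩⟩
    · have := hW t
      obtain ⟨z', -⟩ := (hG t).exists
      exact ⟨z', fun h' => absurd h' h⟩
  choose F hF using step
  let z : ℕ → Z := fun t => WellFounded.fix (C := fun _ => Z) Nat.lt_wfRel.wf (fun t g => F t g) t
  have hz : ∀ t, z t = F t (fun s _ => z s) := fun t =>
    WellFounded.fix_eq (C := fun _ => Z) Nat.lt_wfRel.wf (fun t g => F t g) t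
  have key : ∀ t, Good t (z t) ∧ ∀ s, s < t → Rel s t (z s) (z t) := by
    intro t
    induction t using Nat.strong_induction_on with
    | _ t ih =>
      have h1 := hF t (fun s _ => z s) (fun s hs => (ih s hs).1)
      rw [← hz t] at h1
      exact h1
  exact ⟨z, fun t => (key t).1, fun s t hst => (key t).2 s hst⟩

/-- bounded functions have limits along ultrafilters -/
lemma exists_lim {X : Type} (𝒰 : Ultrafilter X) (f : X → ℂ) (K : ℝ) (hf : ∀ x, ‖f x‖ ≤ K) :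
    ∃ l, Tendsto f 𝒰 (𝓝 l) := by
  have hc : IsCompact (Metric.closedBall (0 : ℂ) K) := isCompact_closedBall _ _
  have h1 : (𝒰.map f : Filter ℂ) ≤ 𝓟 (Metric.closedBall (0 : ℂ) K) := by
    rw [le_principal_iff]
    show _ ∈ Filter.map f 𝒰
    exact Filter.mem_map.2 (Filter.univ_mem' fun x => mem_closedBall_zero_iff.2 (hf x))
  obtain ⟨l, -, hl⟩ := hc.ultrafilter_le_nhds (𝒰.map f) h1
  exact ⟨l, hl⟩

lemma curry_neBot {X Y : Type} (F : Filter X) (G : Filter Y) [F.NeBot] [G.NeBot] :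
    (F.curry G).NeBot := by
  refine ⟨fun h => ?_⟩
  have h1 : ∀ᶠ z in F.curry G, False := by
    rw [h]
    exact Filter.eventually_bot
  rw [Filter.eventually_curry_iff] at h1
  obtain ⟨x, hx⟩ := h1.exists
  obtain ⟨y, hy⟩ := hx.exists
  exact hy

/-- interchange of double limits -/
theorem inter (hM : S_MAT) {X Y : Type} (𝒰 : Ultrafilter X) (𝒱 : Ultrafilter Y) (P : X → Y → ℂ)
    (K : ℝ) (adm : Y → Y → Prop) (hadm : ∀ᶠ η in 𝒱, ∀ᶠ η' in 𝒱, adm η η')
    (hS : ∀ (N : ℕ) (ξ : Fin N → X) (η : Fin N → Y), (∀ i j, i < j → adm (η i) (η j)) →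
      ∀ M : Fin N → Fin N → ℝ, FB M → ‖∑ k, ∑ l, (M k l : ℂ) * P (ξ k) (η l)‖ ≤ K)
    (h0 : ∀ᶠ η in 𝒱, Tendsto (fun ξ => P ξ η) 𝒰 (𝓝 0)) (L : X → ℂ)
    (hL : ∀ ξ, Tendsto (P ξ) 𝒱 (𝓝 (L ξ))) : Tendsto L 𝒰 (𝓝 0) := by
  have hP : ∀ ξ η, ‖P ξ η‖ ≤ K := by
    intro ξ η
    have h1 := hS 1 (fun _ => ξ) (fun _ => η) (fun i j hij => absurd hij (by omega))
      (fun _ _ => 1) (by
        intro u v hu hv
        simp only [Fin.sum_univ_one, Complex.ofReal_one, one_mul, norm_mul]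
        exact mul_le_one₀ (hu 0) (norm_nonneg _) (hv 0))
    simpa using h1
  have hLK : ∀ ξ, ‖L ξ‖ ≤ K := fun ξ =>
    le_of_tendsto (hL ξ).norm (Eventually.of_forall fun η => hP ξ η)
  obtain ⟨δ, hδ⟩ := exists_lim 𝒰 L K hLK
  suffices hd : δ = 0 by rwa [hd] at hδ
  by_contra hne
  have hδ0 : 0 < ‖δ‖ := norm_pos_iff.2 hne
  obtain ⟨N, M, hFB, hsum⟩ := hM ((K + 1) / ‖δ‖)
  set A : ℝ := ∑ k, ∑ l, |M k l| with hA
  have hA0 : 0 ≤ A := Finset.sum_nonneg fun _ _ => Finset.sum_nonneg fun _ _ => abs_nonneg _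
  set ε : ℝ := 1 / (2 * (A + 1)) with hε
  have hε0 : 0 < ε := by positivity
  let Good : ℕ → X × Y → Prop := fun _ z => ‖L z.1 - δ‖ < ε ∧ ‖P z.1 z.2 - L z.1‖ < ε ∧
    Tendsto (fun ξ => P ξ z.2) 𝒰 (𝓝 0) ∧ ∀ᶠ η' in 𝒱, adm z.2 η'
  let Rel : ℕ → ℕ → X × Y → X × Y → Prop := fun _ _ z z' => ‖P z'.1 z.2‖ < ε ∧
    ‖P z.1 z'.2 - L z.1‖ < ε ∧ adm z.2 z'.2
  obtain ⟨z, hz1, hz2⟩ := choose_seq (fun _ => (𝒰 : Filter X).curry (𝒱 : Filter Y))
    (fun _ => curry_neBot _ _) Good (fun _ => by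
      rw [Filter.eventually_curry_iff]
      filter_upwards [Metric.tendsto_nhds.1 hδ ε hε0] with ξ hξ
      filter_upwards [Metric.tendsto_nhds.1 (hL ξ) ε hε0, h0, hadm] with η h1 h2 h3
      rw [dist_eq_norm] at hξ h1
      exact ⟨hξ, h1, h2, h3⟩) Rel (fun _ _ _ z hz => by
      obtain ⟨-, -, h3, h4⟩ := hz
      rw [Filter.eventually_curry_iff]
      filter_upwards [Metric.tendsto_nhds.1 h3 ε hε0] with ξ hξ
      filter_upwards [Metric.tendsto_nhds.1 (hL z.1) ε hε0, h4] with η h1 h2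
      rw [dist_eq_norm] at hξ h1
      rw [sub_zero] at hξ
      exact ⟨hξ, h1, h2⟩)
  have hb := hS N (fun k => (z k).1) (fun l => (z l).2)
    (fun i j hij => (hz2 i j hij).2.2) M hFB
  have hap : ∀ k l : Fin N, ‖P (z k).1 (z l).2 - (if k ≤ l then δ else 0)‖ ≤ 2 * ε := by
    intro k l
    rcases lt_trichotomy k l with h | h | h
    · rw [if_pos h.le]
      have h1 := (hz2 k l h).2.1
      have h2 := (hz1 k).1
      calc ‖P (z k).1 (z l).2 - δ‖ = ‖(P (z k).1 (z l).2 - L (z k).1) + (L (z k).1 - δ)‖ := by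
            congr 1; ring
        _ ≤ _ := (norm_add_le _ _).trans (by linarith)
    · subst h
      rw [if_pos le_rfl]
      have h1 := (hz1 k).2.1
      have h2 := (hz1 k).1
      calc ‖P (z k).1 (z k).2 - δ‖ = ‖(P (z k).1 (z k).2 - L (z k).1) + (L (z k).1 - δ)‖ := by
            congr 1; ring
        _ ≤ _ := (norm_add_le _ _).trans (by linarith)
    · rw [if_neg (not_le.2 h), sub_zero]
      have h1 := (hz2 l k h).1
      linarith
  have hdiff : ‖∑ k, ∑ l, (M k l : ℂ) * P (z k).1 (z l).2 -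
      ∑ k, ∑ l, (M k l : ℂ) * (if k ≤ l then δ else 0)‖ ≤ 1 := by
    rw [← Finset.sum_sub_distrib]
    simp_rw [← Finset.sum_sub_distrib, ← mul_sub]
    calc _ ≤ ∑ k : Fin N, ∑ l : Fin N, |M k l| * (2 * ε) := by
          refine (norm_sum_le _ _).trans (Finset.sum_le_sum fun k _ => ?_)
          refine (norm_sum_le _ _).trans (Finset.sum_le_sum fun l _ => ?_)
          rw [norm_mul, Complex.norm_real, Real.norm_eq_abs]
          exact mul_le_mul_of_nonneg_left (hap k l) (abs_nonneg _)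
      _ = A * (2 * ε) := by
          rw [hA]
          simp_rw [Finset.sum_mul]
      _ ≤ 1 := by
          rw [hε]
          rw [show A * (2 * (1 / (2 * (A + 1)))) = A / (A + 1) by field_simp]
          rw [div_le_one (by positivity)]
          linarith
  have hval : ∑ k, ∑ l, (M k l : ℂ) * (if k ≤ l then δ else 0) =
      ((∑ k, ∑ l, if k ≤ l then M k l else 0 : ℝ) : ℂ) * δ := by
    push_cast
    rw [Finset.sum_mul]
    refine Finset.sum_congr rfl fun k _ => ?_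
    rw [Finset.sum_mul]
    refine Finset.sum_congr rfl fun l _ => ?_
    by_cases h : k ≤ l
    · simp [h]
    · simp [h]
  rw [hval] at hdiff
  have h5 : ‖((∑ k, ∑ l, if k ≤ l then M k l else 0 : ℝ) : ℂ) * δ‖ ≤ K + 1 := by
    have := norm_sub_norm_le (((∑ k, ∑ l, if k ≤ l then M k l else 0 : ℝ) : ℂ) * δ)
      (∑ k, ∑ l, (M k l : ℂ) * P (z k).1 (z l).2)
    rw [norm_sub_rev] at this
    linarith
  rw [norm_mul, Complex.norm_real, Real.norm_eq_abs] at h5
  have h6 : (K + 1) / ‖δ‖ < |∑ k, ∑ l, if k ≤ l then M k l else 0| :=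
    hsum.trans_le (le_abs_self _)
  rw [div_lt_iff₀ hδ0] at h6
  linarith

end Pool.Agent.W667.DT
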