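import Mathlib
import Pool.Agent.W667.DT.Inter

set_option autoImplicit false
set_option maxSynthPendingDepth 3
set_option linter.unusedSectionVars false
set_option linter.unusedVariables false

/-!
Project DT: the contradiction by double limits.
-/

namespace Pool.Agent.W667.DT

open Pool.Agent.Helper832.GD Pool.Agent.Helper832.GD.Bim ContinuousLinearMap Topology Filter

noncomputable section

variable {Ω : Type} [TopologicalSpace Ω] [CompactSpace Ω] [T2Space Ω]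

/-- restriction of functions of two variables -/
def resV (p x : Ω) : KS p →L[ℂ] C(Ω, ℂ) :=
  (cm (⟨fun y => (y, x), by fun_prop⟩ : C(Ω, Ω × Ω))).comp (KS p).subtypeL

lemma resV_apply (p x : Ω) (k : KS p) (y : Ω) : resV p x k y = k.1 (y, x) := rfl

lemma continuous_E4_left (p x : Ω) (w' : Ω × Ω) (t : Tens (KS p) (KS p)) :
    Continuous fun y => E4 p (y, x) w' t := by
  let Θ : Tens (KS p) (KS p) →L[ℂ] C(Ω, ℂ) :=
    lift ((smulRightL ℂ (KS p) C(Ω, ℂ) (ev2 p w')).comp (resV p x))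
  have h : ∀ y, (ContinuousMap.evalCLM ℂ y).comp Θ = E4 p (y, x) w' := fun y =>
    tens_ext fun k k' => by
      rw [comp_apply, E4_tens]
      show (lift ((smulRightL ℂ (KS p) C(Ω, ℂ) (ev2 p w')).comp (resV p x)) (tens k k')) y = _
      rw [lift_tens]
      show k'.1 w' * k.1 (y, x) = _
      rw [mul_comm]
  have h2 : (fun y => E4 p (y, x) w' t) = fun y => Θ t y := by
    funext y
    rw [← h y]
    rfl
  rw [h2]
  exact (Θ t).continuous

lemma continuous_E4_right (p x : Ω) (w : Ω × Ω) (t : Tens (KS p) (KS p)) :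
    Continuous fun y => E4 p w (y, x) t := by
  let Θ : Tens (KS p) (KS p) →L[ℂ] C(Ω, ℂ) := lift ((ev2 p w).smulRight (resV p x))
  have h : ∀ y, (ContinuousMap.evalCLM ℂ y).comp Θ = E4 p w (y, x) := fun y =>
    tens_ext fun k k' => by
      rw [comp_apply, E4_tens]
      show (lift ((ev2 p w).smulRight (resV p x)) (tens k k')) y = _
      rw [lift_tens]
      rfl
  have h2 : (fun y => E4 p w (y, x) t) = fun y => Θ t y := by
    funext y
    rw [← h y]
    rfl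
  rw [h2]
  exact (Θ t).continuous

lemma E4_diag_left (p x : Ω) (w' : Ω × Ω) (t : Tens (KS p) (KS p)) : E4 p (x, x) w' t = 0 := by
  have : E4 p (x, x) w' = 0 := tens_ext fun k k' => by
    rw [E4_tens, k.2.2 x, zero_mul]
    rfl
  rw [this]
  rfl

lemma E4_diag_right (p x : Ω) (w : Ω × Ω) (t : Tens (KS p) (KS p)) : E4 p w (x, x) t = 0 := by
  have : E4 p w (x, x) = 0 := tens_ext fun k k' => by
    rw [E4_tens, k'.2.2 x, mul_zero]
    rfl
  rw [this]
  rfl

lemma ind_one {C : Set Ω} (h : IsClopen C) {w : Ω} (hw : w ∈ C) : ind C w = 1 := by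
  rw [ind_apply h, Set.indicator_of_mem hw]
  rfl

lemma ind_zero {C : Set Ω} {w : Ω} (hw : w ∉ C) : ind C w = 0 := by
  by_cases h : IsClopen C
  · rw [ind_apply h, Set.indicator_of_notMem hw]
  · simp [ind, h]

lemma norm_ind_le (C : Set Ω) : ‖ind C‖ ≤ 1 := by
  refine (ContinuousMap.norm_le _ zero_le_one).2 fun w => ?_
  by_cases h : IsClopen C
  · by_cases hw : w ∈ C
    · rw [ind_one h hw, norm_one]
    · rw [ind_zero hw, norm_zero]
      exact zero_le_one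
  · simp [ind, h]

namespace Chain

variable {p : Ω} {F : ℕ → Set Ω → Set Ω → Set Ω → Set Ω} (ch : Chain p F)

lemma mono' {s t : ℕ} (h : s ≤ t) : ch.M s ⊆ ch.M t := by
  induction h with
  | refl => exact subset_rfl
  | step _ ih => exact ih.trans (ch.mono _)

/-- the filter of the pairs `(y, C)` with `y ∈ C ∈ M t`, `y → x t` and `C` generic -/
def fil (t : ℕ) : Filter (Ω × Set Ω) where
  sets := {S | ∃ W ∈ 𝓝 (ch.x t), ∃ D ∈ ch.M t, ∀ y C, y ∈ W → y ∈ ch.V t → y ∈ C →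
    C ∈ ch.M t → Disjoint C D → (y, C) ∈ S}
  univ_sets := by
    obtain ⟨y, -, hy⟩ := mem_closure_iff_nhds.1 (ch.cl t) Set.univ univ_mem
    obtain ⟨D, hD, -⟩ := hy
    exact ⟨Set.univ, univ_mem, D, hD, fun _ _ _ _ _ _ _ => trivial⟩
  sets_of_superset := by
    rintro S S' ⟨W, hW, D, hD, h⟩ hS
    exact ⟨W, hW, D, hD, fun y C h1 h2 h3 h4 h5 => hS (h y C h1 h2 h3 h4 h5)⟩
  inter_sets := by
    rintro S S' ⟨W, hW, D, hD, h⟩ ⟨W', hW', D', hD', h'⟩
    refine ⟨W ∩ W', inter_mem hW hW', D ∪ D', ch.union t D hD D' hD', ?_⟩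
    intro y C h1 h2 h3 h4 h5
    rw [Set.disjoint_union_right] at h5
    exact ⟨h y C h1.1 h2 h3 h4 h5.1, h' y C h1.2 h2 h3 h4 h5.2⟩

lemma clopenV (t : ℕ) : IsClopen (ch.V t) ∧ p ∉ ch.V t := ch.clopen _ _ (ch.Vmem t)

instance fil_neBot (t : ℕ) : (ch.fil t).NeBot := by
  refine ⟨fun h => ?_⟩
  have h1 : (∅ : Set (Ω × Set Ω)) ∈ ch.fil t := by
    rw [h]
    exact Filter.mem_bot
  obtain ⟨W, hW, D, hD, h2⟩ := h1
  have h3 : ch.x t ∉ D := fun hx => ch.nmem t ⟨D, hD, hx⟩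
  have h4 : W ∩ (ch.V t ∩ Dᶜ) ∈ 𝓝 (ch.x t) :=
    inter_mem hW (inter_mem ((ch.clopenV t).1.isOpen.mem_nhds (ch.mem t))
      ((ch.clopen t D hD).1.compl.isOpen.mem_nhds h3))
  obtain ⟨y, ⟨hy1, hy2, hy3⟩, C, hC, hy4⟩ := mem_closure_iff_nhds.1 (ch.cl t) _ h4
  exact h2 y (C \ D) hy1 hy2 ⟨hy4, hy3⟩ (ch.diff t C hC D hD) Set.disjoint_sdiff_left

/-- the ultrafilter of generic pairs -/
def ult (t : ℕ) : Ultrafilter (Ω × Set Ω) := Ultrafilter.of (ch.fil t)

lemma ult_le (t : ℕ) : (ch.ult t : Filter (Ω × Set Ω)) ≤ ch.fil t := Ultrafilter.of_le _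

lemma ult_good (t : ℕ) : ∀ᶠ z : Ω × Set Ω in (ch.ult t : Filter (Ω × Set Ω)), z.2 ∈ ch.M t ∧ z.1 ∈ z.2 ∧ z.1 ∈ ch.V t := by
  refine ch.ult_le t ?_
  obtain ⟨y, -, hy⟩ := mem_closure_iff_nhds.1 (ch.cl t) Set.univ univ_mem
  obtain ⟨D, hD, -⟩ := hy
  exact ⟨Set.univ, univ_mem, D, hD, fun y C _ h2 h3 h4 _ => ⟨h4, h3, h2⟩⟩

lemma ult_disj (t : ℕ) {D : Set Ω} (hD : D ∈ ch.M t) : 
    ∀ᶠ z : Ω × Set Ω in (ch.ult t : Filter (Ω × Set Ω)), Disjoint z.2 D := by
  refine ch.ult_le t ?_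
  exact ⟨Set.univ, univ_mem, D, hD, fun y C _ _ _ _ h5 => h5⟩

lemma ult_tendsto (t : ℕ) : Tendsto Prod.fst (ch.ult t : Filter (Ω × Set Ω)) (𝓝 (ch.x t)) := by
  intro W hW
  refine ch.ult_le t ?_
  obtain ⟨y, -, hy⟩ := mem_closure_iff_nhds.1 (ch.cl t) Set.univ univ_mem
  obtain ⟨D, hD, -⟩ := hy
  exact ⟨W, hW, D, hD, fun y C h1 _ _ _ _ => h1⟩

end Chain

theorem double (schp : S_SCHP) (schs : S_SCHS) : S_DOUBLE := by
  intro hM Ω _ _ _ p Ψ F hΨ hsupp ch
  obtain ⟨N, M, hFB, hsum⟩ := hM (‖Ψ‖ + 1)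
  set A : ℝ := ∑ k, ∑ l, |M k l| with hA
  have hA0 : 0 ≤ A := Finset.sum_nonneg fun _ _ => Finset.sum_nonneg fun _ _ => abs_nonneg _
  set ε : ℝ := 1 / (3 * (A + 1)) with hε
  have hε0 : 0 < ε := by positivity
  let P : ℕ → ℕ → Ω × Set Ω → Ω × Set Ω → ℂ := fun s t z z' =>
    E4 p (z.1, ch.x s) (z'.1, ch.x t) (Ψ (ind (ch.V s)) (ind (ch.V t)) (ind z'.2))
  let Q : ℕ → ℕ → Ω × Set Ω → Ω × Set Ω → ℂ := fun s t z z' =>
    E4 p (z.1, ch.x s) (z'.1, ch.x t) (Ψ (ind z.2) (ind (ch.V s)) (ind (ch.V t)))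
  have hPS : ∀ s t (N : ℕ) (ξ η : Fin N → Ω × Set Ω),
      (∀ i j, i < j → Disjoint (η i).2 (η j).2) → ∀ M : Fin N → Fin N → ℝ, FB M →
      ‖∑ k, ∑ l, (M k l : ℂ) * P s t (ξ k) (η l)‖ ≤ ‖Ψ‖ := by
    intro s t N ξ η hd M hM
    refine schp Ω p Ψ N M hM (fun k => ((ξ k).1, ch.x s)) (fun l => ((η l).1, ch.x t))
      (ind (ch.V s)) (ind (ch.V t)) (norm_ind_le _) (norm_ind_le _) (fun l => (η l).2) ?_
    intro i j hij
    rcases lt_or_gt_of_ne hij with h | h
    · exact hd i j h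
    · exact (hd j i h).symm
  have hPb : ∀ s t z z', ‖P s t z z'‖ ≤ ‖Ψ‖ := by
    intro s t z z'
    have h1 := hPS s t 1 (fun _ => z) (fun _ => z') (fun i j hij => absurd hij (by omega))
      (fun _ _ => 1) (by
        intro u v hu hv
        simp only [Fin.sum_univ_one, Complex.ofReal_one, one_mul, norm_mul]
        exact mul_le_one₀ (hu 0) (norm_nonneg _) (hv 0))
    simpa using h1
  have hLex : ∀ s t z, ∃ l, Tendsto (P s t z) (ch.ult t) (𝓝 l) := fun s t z =>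
    exists_lim _ _ _ (hPb s t z)
  choose L hL using hLex
  have hL0 : ∀ s t, Tendsto (L s t) (ch.ult s) (𝓝 0) := by
    intro s t
    refine inter hM (ch.ult s) (ch.ult t) (P s t) ‖Ψ‖ (fun η η' => Disjoint η.2 η'.2) ?_
      (hPS s t) ?_ (L s t) (hL s t)
    · filter_upwards [ch.ult_good t] with η hη
      filter_upwards [ch.ult_disj t hη.1] with η' hη'
      exact hη'.symm
    · refine Eventually.of_forall fun η => ?_
      have h1 := (continuous_E4_left p (ch.x s) (η.1, ch.x t)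
        (Ψ (ind (ch.V s)) (ind (ch.V t)) (ind η.2))).tendsto (ch.x s)
      rw [E4_diag_left] at h1
      exact h1.comp (ch.ult_tendsto s)
  let Good : ℕ → Ω × Set Ω → Prop := fun t z => (z.2 ∈ ch.M t ∧ z.1 ∈ z.2 ∧ z.1 ∈ ch.V t) ∧
    ∀ t' ∈ Finset.range (2 * N), ‖L t t' z‖ < ε
  let Rel : ℕ → ℕ → Ω × Set Ω → Ω × Set Ω → Prop := fun s t z z' => Disjoint z'.2 z.2 ∧
    Disjoint z'.2 (ch.V s) ∧ ‖P s t z z' - L s t z‖ < ε ∧ ‖Q s t z z'‖ < ε
  obtain ⟨z, hz1, hz2⟩ := choose_seq (fun t => (ch.ult t : Filter (Ω × Set Ω)))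
    (fun _ => inferInstance) Good (fun t => by
      refine (ch.ult_good t).and ?_
      rw [Filter.eventually_all_finset]
      intro t' _
      filter_upwards [Metric.tendsto_nhds.1 (hL0 t t') ε hε0] with z hz
      rwa [dist_zero_right] at hz) Rel (fun s t hst z hz => by
      obtain ⟨⟨h1, h2, h3⟩, -⟩ := hz
      have e1 := ch.ult_disj t (ch.mono' hst.le h1)
      have e2 := ch.ult_disj t (ch.mono' hst (ch.Vmem s))
      have e3 := Metric.tendsto_nhds.1 (hL s t z) ε hε0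
      have e4 : Tendsto (Q s t z) (ch.ult t) (𝓝 0) := by
        have h1 := (continuous_E4_right p (ch.x t) (z.1, ch.x s)
          (Ψ (ind z.2) (ind (ch.V s)) (ind (ch.V t)))).tendsto (ch.x t)
        rw [E4_diag_right] at h1
        exact h1.comp (ch.ult_tendsto t)
      filter_upwards [e1, e2, e3, Metric.tendsto_nhds.1 e4 ε hε0] with z' f1 f2 f3 f4
      rw [dist_eq_norm] at f3
      rw [dist_zero_right] at f4
      exact ⟨f1, f2, f3, f4⟩)
  have hb := schs Ω p Ψ N M hFB (fun i => ((z (2 * i)).1, ch.x (2 * i)))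
    (fun j => ((z (2 * j + 1)).1, ch.x (2 * j + 1))) (fun i => (z (2 * i)).2)
    (fun j => ch.V (2 * j + 1)) (fun j => (z (2 * j + 1)).2)
    (by
      intro i j hij
      rcases lt_or_gt_of_ne hij with h | h
      · exact ((hz2 (2 * i) (2 * j) (by have : (i : ℕ) < j := h; omega)).1).symm
      · exact (hz2 (2 * j) (2 * i) (by have : (j : ℕ) < i := h; omega)).1)
    (by
      intro i j hij
      rcases lt_or_gt_of_ne hij with h | h
      · exact ch.disj _ _ (by have : (i : ℕ) < j := h; omega)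
      · exact (ch.disj _ _ (by have : (j : ℕ) < i := h; omega)).symm)
    (by
      intro i j hij
      rcases lt_or_gt_of_ne hij with h | h
      · exact ((hz2 (2 * i + 1) (2 * j + 1) (by have : (i : ℕ) < j := h; omega)).1).symm
      · exact (hz2 (2 * j + 1) (2 * i + 1) (by have : (j : ℕ) < i := h; omega)).1)
  have hval : ∀ i j : Fin N, ‖E4 p ((z (2 * i)).1, ch.x (2 * i)) ((z (2 * j + 1)).1,
      ch.x (2 * j + 1)) (Ψ (ind (z (2 * i)).2) (ind (ch.V (2 * j + 1))) (ind (z (2 * j + 1)).2)) -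
      (if i ≤ j then -1 else 0)‖ ≤ 3 * ε := by
    intro i j
    by_cases hij : i ≤ j
    · rw [if_pos hij]
      have hst : 2 * (i : ℕ) < 2 * j + 1 := by have : (i : ℕ) ≤ j := hij; omega
      have ht' : 2 * (j : ℕ) + 1 ∈ Finset.range (2 * N) := by
        have := j.2
        rw [Finset.mem_range]
        omega
      generalize 2 * (i : ℕ) = s at hst ⊢
      generalize 2 * (j : ℕ) + 1 = t at hst ht' ⊢
      obtain ⟨⟨g1, g2, g3⟩, g4⟩ := hz1 s
      obtain ⟨⟨k1, k2, k3⟩, -⟩ := hz1 t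
      obtain ⟨r1, r2, r3, r4⟩ := hz2 s t hst
      have hVs : ch.V s ∈ ch.M t := ch.mono' hst (ch.Vmem s)
      have hCs : (z s).2 ∈ ch.M t := ch.mono' hst.le g1
      have hd := ch.disj s t hst
      have nt : ∀ D ∈ ch.M t, ch.x t ∉ D := fun D hD hx => ch.nmem t ⟨D, hD, hx⟩
      have ns : ∀ D ∈ ch.M s, ch.x s ∉ D := fun D hD hx => ch.nmem s ⟨D, hD, hx⟩
      have key := hΨ (ind (z s).2) (ind (ch.V s)) (ind (ch.V t)) (ind (z t).2)
        (z s).1 (ch.x s) (z t).1 (ch.x t)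
        (ind_zero (ch.clopen _ _ g1).2) (ind_zero (ch.clopenV s).2)
        (ind_zero (ch.clopenV t).2) (ind_zero (ch.clopen _ _ k1).2)
        (ind_one (ch.clopen _ _ g1).1 g2) (ind_zero (ns _ g1))
        (ind_zero fun h => Set.disjoint_left.1 r1 k2 h) (ind_zero (nt _ hCs))
        (ind_one (ch.clopenV s).1 g3) (ind_one (ch.clopenV s).1 (ch.mem s))
        (ind_zero fun h => Set.disjoint_left.1 r2 k2 h) (ind_zero (nt _ hVs))
        (ind_zero fun h => Set.disjoint_left.1 hd g3 h)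
        (ind_zero fun h => Set.disjoint_left.1 hd (ch.mem s) h)
        (ind_one (ch.clopenV t).1 k3) (ind_one (ch.clopenV t).1 (ch.mem t))
        (ind_zero fun h => Set.disjoint_left.1 r2 h g3)
        (ind_zero fun h => Set.disjoint_left.1 r2 h (ch.mem s))
        (ind_one (ch.clopen _ _ k1).1 k2) (ind_zero (nt _ k1))
      have hR : E4 p ((z s).1, ch.x s) ((z t).1, ch.x t)
          (Ψ (ind (z s).2) (ind (ch.V s)) (ind (z t).2)) = 0 := by
        refine hsupp _ _ _ (ch.clopen _ _ g1).1 (ch.clopen _ _ g1).2 (ch.clopenV s).1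
          (ch.clopenV s).2 (ch.clopen _ _ k1).1 (ch.clopen _ _ k1).2 _ _ _ _ (Or.inr ?_)
        intro hx
        obtain ⟨n, hn⟩ := Set.mem_iUnion.1 hx
        exact nt _ (ch.op t n _ hCs _ hVs _ k1) hn
      rw [hR] at key
      have e1 : E4 p ((z s).1, ch.x s) ((z t).1, ch.x t)
          (Ψ (ind (z s).2) (ind (ch.V t)) (ind (z t).2)) - (-1) =
          (P s t (z s) (z t) - L s t (z s)) + L s t (z s) + Q s t (z s) (z t) := by
        show _ = (E4 p ((z s).1, ch.x s) ((z t).1, ch.x t)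
          (Ψ (ind (ch.V s)) (ind (ch.V t)) (ind (z t).2)) - L s t (z s)) + L s t (z s) +
          E4 p ((z s).1, ch.x s) ((z t).1, ch.x t)
          (Ψ (ind (z s).2) (ind (ch.V s)) (ind (ch.V t)))
        linear_combination -key
      rw [e1]
      have h5 := g4 t ht'
      have h6 := norm_add_le (P s t (z s) (z t) - L s t (z s) + L s t (z s)) (Q s t (z s) (z t))
      have h7 := norm_add_le (P s t (z s) (z t) - L s t (z s)) (L s t (z s))
      linarith
    · rw [if_neg hij]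
      have hst : 2 * (j : ℕ) + 1 < 2 * i := by
        have : (j : ℕ) < i := not_le.1 hij
        omega
      generalize 2 * (i : ℕ) = s at hst ⊢
      generalize 2 * (j : ℕ) + 1 = t at hst ⊢
      obtain ⟨⟨g1, g2, g3⟩, -⟩ := hz1 s
      obtain ⟨⟨k1, k2, k3⟩, -⟩ := hz1 t
      have hVt : ch.V t ∈ ch.M s := ch.mono' hst (ch.Vmem t)
      have hCt : (z t).2 ∈ ch.M s := ch.mono' hst.le k1
      have hz : E4 p ((z s).1, ch.x s) ((z t).1, ch.x t)
          (Ψ (ind (z s).2) (ind (ch.V t)) (ind (z t).2)) = 0 := by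
        refine hsupp _ _ _ (ch.clopen _ _ g1).1 (ch.clopen _ _ g1).2 (ch.clopenV t).1
          (ch.clopenV t).2 (ch.clopen _ _ k1).1 (ch.clopen _ _ k1).2 _ _ _ _ (Or.inl ?_)
        intro hx
        obtain ⟨n, hn⟩ := Set.mem_iUnion.1 hx
        exact ch.nmem s ⟨_, ch.op s n _ g1 _ hVt _ hCt, hn⟩
      rw [hz, sub_zero, norm_zero]
      positivity
  have hdiff : ‖∑ i : Fin N, ∑ j : Fin N, (M i j : ℂ) * E4 p ((z (2 * i)).1, ch.x (2 * i))
      ((z (2 * j + 1)).1, ch.x (2 * j + 1)) (Ψ (ind (z (2 * i)).2) (ind (ch.V (2 * j + 1)))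
      (ind (z (2 * j + 1)).2)) -
      ∑ i : Fin N, ∑ j : Fin N, (M i j : ℂ) * (if i ≤ j then -1 else 0)‖ ≤ 1 := by
    rw [← Finset.sum_sub_distrib]
    simp_rw [← Finset.sum_sub_distrib, ← mul_sub]
    calc _ ≤ ∑ k : Fin N, ∑ l : Fin N, |M k l| * (3 * ε) := by
          refine (norm_sum_le _ _).trans (Finset.sum_le_sum fun k _ => ?_)
          refine (norm_sum_le _ _).trans (Finset.sum_le_sum fun l _ => ?_)
          rw [norm_mul, Complex.norm_real, Real.norm_eq_abs]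
          exact mul_le_mul_of_nonneg_left (hval k l) (abs_nonneg _)
      _ = A * (3 * ε) := by
          rw [hA]
          simp_rw [Finset.sum_mul]
      _ ≤ 1 := by
          rw [hε]
          rw [show A * (3 * (1 / (3 * (A + 1)))) = A / (A + 1) by field_simp]
          rw [div_le_one (by positivity)]
          linarith
  have hval2 : ∑ k : Fin N, ∑ l : Fin N, (M k l : ℂ) * (if k ≤ l then -1 else 0) =
      -((∑ k, ∑ l, if k ≤ l then M k l else 0 : ℝ) : ℂ) := by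
    push_cast
    rw [← Finset.sum_neg_distrib]
    refine Finset.sum_congr rfl fun k _ => ?_
    rw [← Finset.sum_neg_distrib]
    refine Finset.sum_congr rfl fun l _ => ?_
    by_cases h : k ≤ l
    · simp [h]
    · simp [h]
  rw [hval2] at hdiff
  have h5 : ‖-((∑ k, ∑ l, if k ≤ l then M k l else 0 : ℝ) : ℂ)‖ ≤ ‖Ψ‖ + 1 := by
    have := norm_sub_norm_le (-((∑ k, ∑ l, if k ≤ l then M k l else 0 : ℝ) : ℂ))
      (∑ i : Fin N, ∑ j : Fin N, (M i j : ℂ) * E4 p ((z (2 * i)).1, ch.x (2 * i))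
      ((z (2 * j + 1)).1, ch.x (2 * j + 1)) (Ψ (ind (z (2 * i)).2) (ind (ch.V (2 * j + 1)))
      (ind (z (2 * j + 1)).2)))
    rw [norm_sub_rev] at this
    linarith
  rw [norm_neg, Complex.norm_real, Real.norm_eq_abs] at h5
  have h6 := hsum.trans_le (le_abs_self _)
  linarith

end

end Pool.Agent.W667.DT
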