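import Mathlib
import Pool.Agent.W667.DT.Double

set_option autoImplicit false
set_option maxSynthPendingDepth 3
set_option linter.unusedSectionVars false
set_option linter.unusedVariables false

/-!
Project DT: Schur bounds.
-/

namespace Pool.Agent.W667.DT

open Pool.Agent.Helper832.GD Pool.Agent.Helper832.GD.Bim ContinuousLinearMap

noncomputable section

variable {Ω : Type} [TopologicalSpace Ω] [CompactSpace Ω] [T2Space Ω]

lemma FB.scale {N : ℕ} {M : Fin N → Fin N → ℝ} (hM : FB M) {a b : ℝ} (u v : Fin N → ℂ)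
    (hu : ∀ i, ‖u i‖ ≤ a) (hv : ∀ j, ‖v j‖ ≤ b) (ha : 0 ≤ a) (hb : 0 ≤ b) :
    ‖∑ i, ∑ j, (M i j : ℂ) * u i * v j‖ ≤ a * b := by
  rcases ha.eq_or_lt with h | h
  · have hu0 : ∀ i, u i = 0 := fun i => norm_le_zero_iff.1 (h ▸ hu i)
    simp [hu0, ← h]
  rcases hb.eq_or_lt with h' | h'
  · have hv0 : ∀ i, v i = 0 := fun i => norm_le_zero_iff.1 (h' ▸ hv i)
    simp [hv0, ← h']
  have h1 := hM (fun i => u i / a) (fun j => v j / b) (fun i => by
      rw [norm_div, Complex.norm_real, Real.norm_of_nonneg ha, div_le_one h]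
      exact hu i) (fun j => by
      rw [norm_div, Complex.norm_real, Real.norm_of_nonneg hb, div_le_one h']
      exact hv j)
  have h2 : ∑ i, ∑ j, (M i j : ℂ) * u i * v j =
      ((a * b : ℝ) : ℂ) * ∑ i, ∑ j, (M i j : ℂ) * (u i / a) * (v j / b) := by
    rw [Finset.mul_sum]
    refine Finset.sum_congr rfl fun i _ => ?_
    rw [Finset.mul_sum]
    refine Finset.sum_congr rfl fun j _ => ?_
    have ha' : (a : ℂ) ≠ 0 := by exact_mod_cast h.ne'
    have hb' : (b : ℂ) ≠ 0 := by exact_mod_cast h'.ne'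
    push_cast
    field_simp
  rw [h2, norm_mul, Complex.norm_real, Real.norm_of_nonneg (by positivity)]
  calc a * b * _ ≤ a * b * 1 := mul_le_mul_of_nonneg_left h1 (by positivity)
    _ = a * b := mul_one _

/-- the bilinear form of a pair of evaluations -/
def bf (p : Ω) (w w' : Ω × Ω) : KS p →L[ℂ] KS p →L[ℂ] ℂ :=
  ((compL ℂ (KS p) ℂ ℂ).flip (ev2 p w')).comp ((ContinuousLinearMap.mul ℂ ℂ).comp (ev2 p w))

lemma bf_apply (p : Ω) (w w' : Ω × Ω) (k k' : KS p) : bf p w w' k k' = k.1 w * k'.1 w' := rfl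

lemma E4_eq (p : Ω) (w w' : Ω × Ω) : E4 p w w' = lift (bf p w w') := rfl

lemma sch (p : Ω) (t : Tens (KS p) (KS p)) {N : ℕ} {M : Fin N → Fin N → ℝ} (hM : FB M)
    (w w' : Fin N → Ω × Ω) (α β : Fin N → ℂ) (hα : ∀ i, ‖α i‖ ≤ 1) (hβ : ∀ j, ‖β j‖ ≤ 1) :
    ‖∑ i, ∑ j, (M i j : ℂ) * α i * β j * E4 p (w i) (w' j) t‖ ≤ ‖t‖ := by
  let B : KS p →L[ℂ] KS p →L[ℂ] ℂ :=
    ∑ i, ∑ j, ((M i j : ℂ) * α i * β j) • bf p (w i) (w' j)
  have hB : ∀ k k', B k k' = ∑ i, ∑ j, (M i j : ℂ) * (α i * k.1 (w i)) * (β j * k'.1 (w' j)) := by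
    intro k k'
    simp only [B, sum_apply, smul_apply, bf_apply, smul_eq_mul]
    refine Finset.sum_congr rfl fun i _ => Finset.sum_congr rfl fun j _ => ?_
    ring
  have hBn : ‖B‖ ≤ 1 := by
    refine ContinuousLinearMap.opNorm_le_bound₂ _ zero_le_one fun k k' => ?_
    rw [hB, one_mul]
    refine hM.scale _ _ (fun i => ?_) (fun j => ?_) (norm_nonneg _) (norm_nonneg _)
    · rw [norm_mul]
      calc _ ≤ 1 * ‖k‖ := mul_le_mul (hα i) (k.1.norm_coe_le_norm _) (norm_nonneg _) zero_le_one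
        _ = _ := one_mul _
    · rw [norm_mul]
      calc _ ≤ 1 * ‖k'‖ := mul_le_mul (hβ j) (k'.1.norm_coe_le_norm _) (norm_nonneg _) zero_le_one
        _ = _ := one_mul _
  have h1 : ∑ i, ∑ j, (M i j : ℂ) * α i * β j * E4 p (w i) (w' j) t = lift B t := by
    simp only [B, map_sum, map_smul, sum_apply, smul_apply, smul_eq_mul, E4_eq]
  rw [h1]
  calc _ ≤ ‖t‖ * ‖B‖ := norm_lift_scalar_le _ _
    _ ≤ ‖t‖ * 1 := mul_le_mul_of_nonneg_left hBn (norm_nonneg _)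
    _ = _ := mul_one _

/-- averaging over signs -/
lemma avg {ι E : Type} [DecidableEq ι] [AddCommGroup E] [Module ℂ E] (g : ι → E →ₗ[ℂ] ℂ) (u : ι → E)
    (c : ℝ) (T : Finset ι) : ∀ a : ℂ,
    (∀ ε : ι → ℂ, (∀ i, ‖ε i‖ ≤ 1) → ‖a + ∑ i ∈ T, ε i * g i (∑ j ∈ T, ε j • u j)‖ ≤ c) →
    ‖a + ∑ i ∈ T, g i (u i)‖ ≤ c := by
  induction T using Finset.induction_on with
  | empty =>
    intro a h
    have := h (fun _ => 1) (fun _ => by simp)
    simpa using this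
  | insert k T hk ih =>
    intro a h
    rw [Finset.sum_insert hk, ← add_assoc]
    refine ih (a + g k (u k)) fun ε hε => ?_
    have h1 := h (Function.update ε k 1) (fun i => by
      by_cases hi : i = k
      · subst hi
        simp
      · rw [Function.update_of_ne hi]
        exact hε i)
    have h2 := h (Function.update ε k (-1)) (fun i => by
      by_cases hi : i = k
      · subst hi
        simp
      · rw [Function.update_of_ne hi]
        exact hε i)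
    have e : ∀ z : ℂ, ∀ j ∈ T, Function.update ε k z j = ε j := fun z j hj =>
      Function.update_of_ne (fun h : j = k => hk (h ▸ hj)) _ _
    have f : ∀ z : ℂ, ∑ i ∈ insert k T, Function.update ε k z i *
        g i (∑ j ∈ insert k T, Function.update ε k z j • u j) =
        z * (z * g k (u k) + g k (∑ j ∈ T, ε j • u j)) +
        (z * ∑ i ∈ T, ε i * g i (u k) + ∑ i ∈ T, ε i * g i (∑ j ∈ T, ε j • u j)) := by
      intro z
      rw [Finset.sum_insert hk, Finset.sum_insert hk, Function.update_self]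
      have f1 : ∑ j ∈ T, Function.update ε k z j • u j = ∑ j ∈ T, ε j • u j :=
        Finset.sum_congr rfl fun j hj => by rw [e z j hj]
      rw [f1, map_add, map_smul, smul_eq_mul]
      congr 1
      rw [Finset.mul_sum, ← Finset.sum_add_distrib]
      refine Finset.sum_congr rfl fun i hi => ?_
      rw [e z i hi, map_add, map_smul, smul_eq_mul]
      ring
    rw [f] at h1 h2
    have h3 := norm_add_le (a + (1 * (1 * g k (u k) + g k (∑ j ∈ T, ε j • u j)) +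
        (1 * ∑ i ∈ T, ε i * g i (u k) + ∑ i ∈ T, ε i * g i (∑ j ∈ T, ε j • u j))))
      (a + (-1 * (-1 * g k (u k) + g k (∑ j ∈ T, ε j • u j)) +
        (-1 * ∑ i ∈ T, ε i * g i (u k) + ∑ i ∈ T, ε i * g i (∑ j ∈ T, ε j • u j))))
    have h4 : (a + (1 * (1 * g k (u k) + g k (∑ j ∈ T, ε j • u j)) +
        (1 * ∑ i ∈ T, ε i * g i (u k) + ∑ i ∈ T, ε i * g i (∑ j ∈ T, ε j • u j)))) +
      (a + (-1 * (-1 * g k (u k) + g k (∑ j ∈ T, ε j • u j)) +
        (-1 * ∑ i ∈ T, ε i * g i (u k) + ∑ i ∈ T, ε i * g i (∑ j ∈ T, ε j • u j)))) =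
      2 * (a + g k (u k) + ∑ i ∈ T, ε i * g i (∑ j ∈ T, ε j • u j)) := by ring
    rw [h4, norm_mul] at h3
    have h5 : ‖(2 : ℂ)‖ = 2 := by simp
    rw [h5] at h3
    linarith

lemma norm_sum_ind_le {N : ℕ} (C : Fin N → Set Ω) (hC : Pairwise fun i j => Disjoint (C i) (C j))
    (ε : Fin N → ℂ) (hε : ∀ i, ‖ε i‖ ≤ 1) : ‖∑ i, ε i • ind (C i)‖ ≤ 1 := by
  refine (ContinuousMap.norm_le _ zero_le_one).2 fun w => ?_
  rw [ContinuousMap.sum_apply]
  by_cases h : ∃ i, w ∈ C i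
  · obtain ⟨i, hi⟩ := h
    rw [Finset.sum_eq_single i (fun j _ hj => by
      rw [ContinuousMap.smul_apply, ind_zero (fun hj' => Set.disjoint_left.1 (hC hj) hj' hi),
        smul_zero]) (fun h => absurd (Finset.mem_univ _) h)]
    rw [ContinuousMap.smul_apply, norm_smul]
    calc _ ≤ 1 * 1 := mul_le_mul (hε i)
          (((ind (C i)).norm_coe_le_norm w).trans (norm_ind_le _)) (norm_nonneg _) zero_le_one
      _ = 1 := one_mul _
  · rw [Finset.sum_eq_zero (fun j _ => by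
      rw [ContinuousMap.smul_apply, ind_zero (fun hj' => h ⟨j, hj'⟩), smul_zero])]
    rw [norm_zero]
    exact zero_le_one

lemma norm3_le (p : Ω) (Ψ : C(Ω, ℂ) →L[ℂ] C(Ω, ℂ) →L[ℂ] C(Ω, ℂ) →L[ℂ] Tens (KS p) (KS p))
    (a b c : C(Ω, ℂ)) (ha : ‖a‖ ≤ 1) (hb : ‖b‖ ≤ 1) (hc : ‖c‖ ≤ 1) : ‖Ψ a b c‖ ≤ ‖Ψ‖ := by
  have h1 : ‖Ψ a‖ ≤ ‖Ψ‖ := (Ψ.le_opNorm a).trans (mul_le_of_le_one_right (norm_nonneg _) ha)
  have h2 : ‖Ψ a b‖ ≤ ‖Ψ a‖ :=
    ((Ψ a).le_opNorm b).trans (mul_le_of_le_one_right (norm_nonneg _) hb)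
  have h3 : ‖Ψ a b c‖ ≤ ‖Ψ a b‖ :=
    ((Ψ a b).le_opNorm c).trans (mul_le_of_le_one_right (norm_nonneg _) hc)
  exact h3.trans (h2.trans h1)

theorem schp : S_SCHP := by
  intro Ω _ _ _ p Ψ N M hM w w' e f he hf C hC
  let g : Fin N → C(Ω, ℂ) →ₗ[ℂ] ℂ := fun l =>
    (∑ k, (M k l : ℂ) • (E4 p (w k) (w' l)).comp (Ψ e f)).toLinearMap
  have hg : ∀ l b, g l b = ∑ k, (M k l : ℂ) * E4 p (w k) (w' l) (Ψ e f b) := by
    intro l b
    show (∑ k, (M k l : ℂ) • (E4 p (w k) (w' l)).comp (Ψ e f)) b = _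
    rw [sum_apply]
    rfl
  have h := avg g (fun l => ind (C l)) ‖Ψ‖ Finset.univ 0 (fun ε hε => by
    rw [zero_add]
    simp_rw [hg]
    set b : C(Ω, ℂ) := ∑ j, ε j • ind (C j) with hb
    have h1 := sch p (Ψ e f b) hM w w' (fun _ => 1) ε (fun _ => by simp) hε
    have h2 : ∑ i, ε i * ∑ k, (M k i : ℂ) * E4 p (w k) (w' i) (Ψ e f b) =
        ∑ i, ∑ j, (M i j : ℂ) * 1 * ε j * E4 p (w i) (w' j) (Ψ e f b) := by
      rw [Finset.sum_comm]
      refine Finset.sum_congr rfl fun i _ => ?_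
      rw [Finset.mul_sum]
      refine Finset.sum_congr rfl fun k _ => ?_
      ring
    rw [h2]
    exact h1.trans (norm3_le p Ψ e f b he hf (norm_sum_ind_le C hC ε hε)))
  rw [zero_add] at h
  simp_rw [hg] at h
  rw [Finset.sum_comm] at h
  exact h

theorem schs : S_SCHS := by
  intro Ω _ _ _ p Ψ N M hM w w' C V C' hC hV hC'
  -- third argument
  have s3 : ∀ (a f : C(Ω, ℂ)) (α β : Fin N → ℂ), ‖a‖ ≤ 1 → ‖f‖ ≤ 1 → (∀ i, ‖α i‖ ≤ 1) →
      (∀ i, ‖β i‖ ≤ 1) →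
      ‖∑ i, ∑ j, (M i j : ℂ) * α i * β j * E4 p (w i) (w' j) (Ψ a f (ind (C' j)))‖ ≤ ‖Ψ‖ := by
    intro a f α β ha hf hα hβ
    let g : Fin N → C(Ω, ℂ) →ₗ[ℂ] ℂ := fun l =>
      (∑ k, ((M k l : ℂ) * α k * β l) • (E4 p (w k) (w' l)).comp (Ψ a f)).toLinearMap
    have hg : ∀ l b, g l b = ∑ k, (M k l : ℂ) * α k * β l * E4 p (w k) (w' l) (Ψ a f b) := by
      intro l b
      show (∑ k, ((M k l : ℂ) * α k * β l) • (E4 p (w k) (w' l)).comp (Ψ a f)) b = _
      rw [sum_apply]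
      rfl
    have h := avg g (fun l => ind (C' l)) ‖Ψ‖ Finset.univ 0 (fun ε hε => by
      rw [zero_add]
      simp_rw [hg]
      set b : C(Ω, ℂ) := ∑ j, ε j • ind (C' j) with hb
      have h1 := sch p (Ψ a f b) hM w w' α (fun j => β j * ε j) hα (fun j => by
        rw [norm_mul]
        exact mul_le_one₀ (hβ j) (norm_nonneg _) (hε j))
      have h2 : ∑ i, ε i * ∑ k, (M k i : ℂ) * α k * β i * E4 p (w k) (w' i) (Ψ a f b) =
          ∑ i, ∑ j, (M i j : ℂ) * α i * (β j * ε j) * E4 p (w i) (w' j) (Ψ a f b) := by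
        rw [Finset.sum_comm]
        refine Finset.sum_congr rfl fun i _ => ?_
        rw [Finset.mul_sum]
        refine Finset.sum_congr rfl fun k _ => ?_
        ring
      rw [h2]
      exact h1.trans (norm3_le p Ψ a f b ha hf (norm_sum_ind_le C' hC' ε hε)))
    rw [zero_add] at h
    simp_rw [hg] at h
    rw [Finset.sum_comm] at h
    exact h
  -- second argument
  have s2 : ∀ (a : C(Ω, ℂ)) (α : Fin N → ℂ), ‖a‖ ≤ 1 → (∀ i, ‖α i‖ ≤ 1) →
      ‖∑ i, ∑ j, (M i j : ℂ) * α i * E4 p (w i) (w' j) (Ψ a (ind (V j)) (ind (C' j)))‖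
        ≤ ‖Ψ‖ := by
    intro a α ha hα
    let g : Fin N → C(Ω, ℂ) →ₗ[ℂ] ℂ := fun l =>
      (∑ k, ((M k l : ℂ) * α k) •
        (E4 p (w k) (w' l)).comp ((Ψ a).flip (ind (C' l)))).toLinearMap
    have hg : ∀ l b, g l b = ∑ k, (M k l : ℂ) * α k *
        E4 p (w k) (w' l) (Ψ a b (ind (C' l))) := by
      intro l b
      show (∑ k, ((M k l : ℂ) * α k) •
        (E4 p (w k) (w' l)).comp ((Ψ a).flip (ind (C' l)))) b = _
      rw [sum_apply]
      rfl
    have h := avg g (fun l => ind (V l)) ‖Ψ‖ Finset.univ 0 (fun ε hε => by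
      rw [zero_add]
      simp_rw [hg]
      set b : C(Ω, ℂ) := ∑ j, ε j • ind (V j) with hb
      have h1 := s3 a b α ε ha (norm_sum_ind_le V hV ε hε) hα hε
      have h2 : ∑ i, ε i * ∑ k, (M k i : ℂ) * α k * E4 p (w k) (w' i) (Ψ a b (ind (C' i))) =
          ∑ i, ∑ j, (M i j : ℂ) * α i * ε j * E4 p (w i) (w' j) (Ψ a b (ind (C' j))) := by
        rw [Finset.sum_comm]
        refine Finset.sum_congr rfl fun i _ => ?_
        rw [Finset.mul_sum]
        refine Finset.sum_congr rfl fun k _ => ?_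
        ring
      rw [h2]
      exact h1)
    rw [zero_add] at h
    simp_rw [hg] at h
    rw [Finset.sum_comm] at h
    exact h
  -- first argument
  let g : Fin N → C(Ω, ℂ) →ₗ[ℂ] ℂ := fun i =>
    (∑ j, (M i j : ℂ) •
      (E4 p (w i) (w' j)).comp ((Ψ.flip (ind (V j))).flip (ind (C' j)))).toLinearMap
  have hg : ∀ i b, g i b = ∑ j, (M i j : ℂ) *
      E4 p (w i) (w' j) (Ψ b (ind (V j)) (ind (C' j))) := by
    intro i b
    show (∑ j, (M i j : ℂ) •
      (E4 p (w i) (w' j)).comp ((Ψ.flip (ind (V j))).flip (ind (C' j)))) b = _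
    rw [sum_apply]
    rfl
  have h := avg g (fun i => ind (C i)) ‖Ψ‖ Finset.univ 0 (fun ε hε => by
    rw [zero_add]
    simp_rw [hg]
    set b : C(Ω, ℂ) := ∑ j, ε j • ind (C j) with hb
    have h1 := s2 b ε (norm_sum_ind_le C hC ε hε) hε
    have h2 : ∑ i, ε i * ∑ j, (M i j : ℂ) * E4 p (w i) (w' j) (Ψ b (ind (V j)) (ind (C' j))) =
        ∑ i, ∑ j, (M i j : ℂ) * ε i * E4 p (w i) (w' j) (Ψ b (ind (V j)) (ind (C' j))) := by
      refine Finset.sum_congr rfl fun i _ => ?_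
      rw [Finset.mul_sum]
      refine Finset.sum_congr rfl fun k _ => ?_
      ring
    rw [h2]
    exact h1)
  rw [zero_add] at h
  simp_rw [hg] at h
  exact h

end

end Pool.Agent.W667.DT
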