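import Mathlib
import Pool.Agent.W667.DT.Psi
import Pool.Agent.W667.DT.Schur
import Pool.Agent.W667.DT.Level
import Pool.Agent.W340.DT.Models
import Pool.Agent.W335.DT.Proj
import Pool.Agent.W338.DT.Lim
import Pool.Agent.W363.DT.Seq1
import Pool.Agent.W479.DT.Ind
import Pool.Agent.W305.DT.HS
import Pool.Agent.W565.DT.Km
import Pool.Agent.W565.DT.Plus
import Pool.Agent.W965.DT.Mat
import Pool.Agent.W240.DT.Supp
import Pool.Agent.W347.DT.Step
import Pool.Agent.Helper832.GDStmt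
import Pool.Agent.Helper832.GDV
import Pool.Agent.Helper832.GDU
import Pool.Agent.H724R3.N.Comm3
import Pool.Agent.H724R3.N.Scat

set_option autoImplicit false
set_option maxSynthPendingDepth 3
set_option linter.unusedSectionVars false
set_option linter.unusedVariables false

/-!
Project DT: the main theorem.
-/

namespace Pool.Agent.W667.DT

open Pool.Agent.Helper832 Pool.Agent.Helper832.GD Topology Filter

/-- the global dimension equals the bidimension -/
lemma dg_eq (Ω : Type) [TopologicalSpace Ω] [CompactSpace Ω] [T2Space Ω] :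
    GS.dg C(Ω, ℂ) = GS.db C(Ω, ℂ) :=
  GS.dg_eq_db fun _ _ _ _ _ _ _ _ l r h1 h2 h3 h4 h5 =>
    Pool.Agent.Helper832.RT.retract l r ⟨h1, h2, h3, h4, h5⟩

/-- a space with a preperfect nonempty subset has no finite resolution -/
lemma not_res_of_preperfect (Ω : Type) [TopologicalSpace Ω] [CompactSpace Ω] [T2Space Ω]
    (S : Set Ω) (hne : S.Nonempty) (hS : Preperfect S) (n : ℕ) :
    ¬ (plusBim C(Ω, ℂ)).HasResolution n := by
  intro h
  obtain ⟨f, hf⟩ := Pool.Agent.H724R3.N.scat Ω S hne hS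
  obtain ⟨h1, -⟩ := Pool.Agent.H724R3.N.comm3 Ω f hf
  have h2 : (GS.plusBMod C(Ω, ℂ)).HasResolution n := by
    rw [← GS.BMod.ofC_plusBim]
    exact GS.BMod.ofC_hasResolution h
  have h3 := GS.BMod.dh_le h2
  have h4 : GS.db C(Ω, ℂ) ≤ n := h3
  rw [h1] at h4
  exact absurd h4 (by simp)

lemma preperfect_cantor : Preperfect (Set.univ : Set Cantor) := by
  intro z _
  rw [accPt_iff_nhds]
  intro U hU
  have ht : Tendsto (fun n : ℕ => Function.update z n (!z n)) atTop (𝓝 z) := by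
    rw [tendsto_pi_nhds]
    intro i
    refine tendsto_const_nhds.congr' ?_
    filter_upwards [eventually_gt_atTop i] with n hn
    rw [Function.update_of_ne (ne_of_lt hn)]
  obtain ⟨n, hn⟩ := (ht.eventually hU).exists
  refine ⟨Function.update z n (!z n), ⟨hn, trivial⟩, fun h => ?_⟩
  have h1 := congrFun h n
  rw [Function.update_self] at h1
  cases hz : z n <;> simp [hz] at h1

/-- a resolution of length at most three: the space is totally disconnected -/
lemma totallyDisconnected_of_res (Ω : Type) [TopologicalSpace Ω] [CompactSpace Ω] [T2Space Ω]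
    (n : ℕ) (h : (plusBim C(Ω, ℂ)).HasResolution n) : TotallyDisconnectedSpace Ω := by
  refine ⟨fun t _ ht => ?_⟩
  by_contra hns
  rw [Set.not_subsingleton_iff] at hns
  have h1 : Preperfect t := ht.preperfect_of_nontrivial hns
  exact not_res_of_preperfect Ω t hns.nonempty h1 n h

/-- finite height -/
lemma height_of_res (Ω : Type) [TopologicalSpace Ω] [CompactSpace Ω] [T2Space Ω]
    (n : ℕ) (h : (plusBim C(Ω, ℂ)).HasResolution n) : ∃ r, Dr Ω r = ∅ := by
  haveI := totallyDisconnected_of_res Ω n h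
  by_contra hne
  push Not at hne
  have h1 := Pool.Agent.W338.DT.lim Pool.Agent.W565.DT.km_props Pool.Agent.W347.DT.step Ω n
    hne h
  exact not_res_of_preperfect Cantor Set.univ ⟨fun _ => false, trivial⟩ preperfect_cantor n h1

/-- a resolution of length at most three: the complements of points are disjoint unions of
clopen sets -/
lemma du_of_res (Ω : Type) [TopologicalSpace Ω] [CompactSpace Ω] [T2Space Ω]
    (h : (plusBim C(Ω, ℂ)).HasResolution 3) (p : Ω) : DU ({p}ᶜ : Set Ω) := by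
  haveI := totallyDisconnected_of_res Ω 3 h
  by_contra hDU
  obtain ⟨Ψ, hΨ⟩ := psi Ω p h
  have hs := fun t => Pool.Agent.W240.DT.supp Ω p t
  choose D hD1 hD2 using hs
  let F : ℕ → Set Ω → Set Ω → Set Ω → Set Ω := fun n C₁ C₂ C₃ =>
    D (Ψ (ind C₁) (ind C₂) (ind C₃)) n
  obtain ⟨ch⟩ := Pool.Agent.W340.DT.models Ω p F (fun n C₁ C₂ C₃ _ _ _ _ _ _ => hD1 _ _) hDU
  exact double schp schs Pool.Agent.W965.DT.mat Ω p Ψ F hΨ
    (fun C₁ C₂ C₃ _ _ _ _ _ _ y x y' x' hx => hD2 _ y x y' x' hx) ch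

/-- the upper bound -/
lemma res_two (Ω : Type) [TopologicalSpace Ω] [CompactSpace Ω] [T2Space Ω]
    [TotallyDisconnectedSpace Ω] (r : ℕ) (hr : Dr Ω r = ∅) (h : ∀ p : Ω, DU ({p}ᶜ : Set Ω)) :
    (plusBim C(Ω, ℂ)).HasResolution 2 := by
  have h1 := Pool.Agent.W479.DT.ind_height
    (level Pool.W335.DTproj.proj Pool.Agent.W363.DT.seq1 Pool.Agent.W363.DT.seq2
      Pool.Agent.W363.DT.seq3 Pool.Agent.W305.DT.hs Pool.Agent.W305.DT.qt
      Pool.Agent.W305.DT.mono) Ω h r hr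
  exact Pool.Agent.W305.DT.res _ _ _ (Pool.Agent.W565.DT.plus_of Pool.Agent.W305.DT.hs
    Pool.Agent.W305.DT.mono Ω 2 h1)

/-- the complements of points are disjoint unions of clopen sets: totally disconnected -/
lemma td_of_du (Ω : Type) [TopologicalSpace Ω] [CompactSpace Ω] [T2Space Ω]
    (h : ∀ p : Ω, DU ({p}ᶜ : Set Ω)) : TotallyDisconnectedSpace Ω := by
  refine ⟨fun t _ ht x hx y hy => ?_⟩
  by_contra hxy
  obtain ⟨𝒟, h1, -, h3⟩ := h y
  have hx' : x ∈ ⋃₀ 𝒟 := by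
    rw [h3]
    exact hxy
  obtain ⟨C, hC, hxC⟩ := hx'
  have h4 : t ⊆ C := ht.subset_isClopen (h1 C hC) ⟨x, hx, hxC⟩
  have h5 : y ∈ ⋃₀ 𝒟 := ⟨C, hC, h4 hy⟩
  rw [h3] at h5
  exact h5 rfl

/-- a resolution of length three exists if and only if one of length two does -/
theorem res_iff (Ω : Type) [TopologicalSpace Ω] [CompactSpace Ω] [T2Space Ω] :
    ((plusBim C(Ω, ℂ)).HasResolution 3 ↔
      (∃ r, Dr Ω r = ∅) ∧ ∀ p : Ω, DU ({p}ᶜ : Set Ω)) ∧
    ((plusBim C(Ω, ℂ)).HasResolution 2 ↔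
      (∃ r, Dr Ω r = ∅) ∧ ∀ p : Ω, DU ({p}ᶜ : Set Ω)) := by
  have h32 : (plusBim C(Ω, ℂ)).HasResolution 3 →
      (∃ r, Dr Ω r = ∅) ∧ ∀ p : Ω, DU ({p}ᶜ : Set Ω) := fun h =>
    ⟨height_of_res Ω 3 h, du_of_res Ω h⟩
  have h2 : ((∃ r, Dr Ω r = ∅) ∧ ∀ p : Ω, DU ({p}ᶜ : Set Ω)) →
      (plusBim C(Ω, ℂ)).HasResolution 2 := by
    rintro ⟨⟨r, hr⟩, h⟩
    haveI := td_of_du Ω h
    exact res_two Ω r hr h
  exact ⟨⟨h32, fun h => (h2 h).mono (by norm_num)⟩,
    ⟨fun h => h32 (h.mono (by norm_num)), h2⟩⟩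

/-- the main theorem for the bidimension -/
theorem db_main (Ω : Type) [TopologicalSpace Ω] [CompactSpace Ω] [T2Space Ω] :
    GS.db C(Ω, ℂ) ≠ 3 ∧ (GS.db C(Ω, ℂ) ≤ 2 ↔
      (∃ r, Dr Ω r = ∅) ∧ ∀ p : Ω, DU ({p}ᶜ : Set Ω)) := by
  have key : ∀ n : ℕ, GS.db C(Ω, ℂ) ≤ n ↔ (plusBim C(Ω, ℂ)).HasResolution n := by
    intro n
    constructor
    · intro h
      by_contra hn
      have h1 : ¬ (GS.plusBMod C(Ω, ℂ)).HasResolution n := by
        rw [← GS.BMod.ofC_plusBim]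
        intro h2
        exact hn (GS.BMod.of_ofC_hasResolution h2)
      have h2 := GS.BMod.le_dh h1
      have h3 : ((n + 1 : ℕ) : ℕ∞) ≤ n := h2.trans h
      rw [Nat.cast_le] at h3
      omega
    · intro h
      have h2 : (GS.plusBMod C(Ω, ℂ)).HasResolution n := by
        rw [← GS.BMod.ofC_plusBim]
        exact GS.BMod.ofC_hasResolution h
      exact GS.BMod.dh_le h2
  obtain ⟨h3, h2⟩ := res_iff Ω
  refine ⟨fun h => ?_, ?_⟩
  · have h4 : GS.db C(Ω, ℂ) ≤ (3 : ℕ) := by rw [h]; rfl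
    have h5 : GS.db C(Ω, ℂ) ≤ (2 : ℕ) := (key 2).2 (h2.2 (h3.1 ((key 3).1 h4)))
    rw [h] at h5
    exact absurd h5 (by decide)
  · have h6 := key 2
    exact h6.trans h2

end Pool.Agent.W667.DT
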